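import Mathlib

set_option autoImplicit false
open scoped Classical

namespace Pool.Agent.U523.BC

/-- The defining property of a partition of the edges of `G` into bicliques. -/
def IsPart {n : ℕ} (G : SimpleGraph (Fin n)) {ι : Type} (A B : ι → Finset (Fin n)) : Prop :=
  (∀ i, Disjoint (A i) (B i)) ∧
    ∀ u v : Fin n,
      (G.Adj u v → ∃! i, (u ∈ A i ∧ v ∈ B i) ∨ (v ∈ A i ∧ u ∈ B i)) ∧
      (¬ G.Adj u v → ∀ i, ¬ (u ∈ A i ∧ v ∈ B i))

theorem IsPart.congr {n : ℕ} {G : SimpleGraph (Fin n)} {ι κ : Type} {A B : ι → Finset (Fin n)}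
    (h : IsPart G A B) (e : κ ≃ ι) : IsPart G (A ∘ e) (B ∘ e) := by
  refine ⟨fun i => h.1 (e i), fun u v => ⟨fun huv => ?_, fun huv i => (h.2 u v).2 huv (e i)⟩⟩
  obtain ⟨i, hi, hu⟩ := (h.2 u v).1 huv
  refine ⟨e.symm i, ?_, ?_⟩
  · simpa using hi
  · intro j hj
    have := hu (e j) hj
    rw [← this]; simp

/-- An independent set with a pair of twins outside saves one biclique. -/
theorem exists_part {n m : ℕ} (G : SimpleGraph (Fin n)) (I : Finset (Fin n)) (hI : I.card = m)
    (hind : ∀ x ∈ I, ∀ y ∈ I, ¬ G.Adj x y) (u v : Fin n) (hu : u ∉ I) (hv : v ∉ I)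
    (huv : u ≠ v) (hnadj : ¬ G.Adj u v) (htw : ∀ w ∈ I, (G.Adj u w ↔ G.Adj v w)) :
    m + 2 ≤ n ∧ ∃ A B : Fin (n - m - 1) → Finset (Fin n), IsPart G A B := by
  set S : Finset (Fin n) := insert u (insert v I) with hS
  have hScard : S.card = m + 2 := by
    rw [hS, Finset.card_insert_of_notMem, Finset.card_insert_of_notMem hv, hI]
    simp [huv, hu]
  have hle : m + 2 ≤ n := by
    have := Finset.card_le_univ S
    simp only [Fintype.card_fin] at this
    omega
  refine ⟨hle, ?_⟩
  let ι := Option {w : Fin n // w ∉ S}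
  have hcard : Fintype.card ι = n - m - 1 := by
    have h1 : Fintype.card {w : Fin n // w ∉ S} = n - (m + 2) := by
      rw [Fintype.card_subtype_compl, Fintype.card_fin, Fintype.card_coe, hScard]
    rw [Fintype.card_option, h1]; omega
  let A : ι → Finset (Fin n) := fun i => i.elim {u, v} (fun w => {w.1})
  let B : ι → Finset (Fin n) := fun i => i.elim (I.filter (fun x => G.Adj u x))
    (fun w => Finset.univ.filter (fun x => G.Adj w.1 x ∧ (x ∈ S ∨ x < w.1)))
  have hpart : IsPart G A B := by
    refine ⟨?_, ?_⟩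
    · rintro (_ | w)
      · simp only [A, B, Option.elim]
        rw [Finset.disjoint_left]
        intro x hx hx'
        simp only [Finset.mem_insert, Finset.mem_singleton] at hx
        rw [Finset.mem_filter] at hx'
        rcases hx with rfl | rfl
        · exact hu hx'.1
        · exact hv hx'.1
      · simp only [A, B, Option.elim]
        rw [Finset.disjoint_singleton_left]
        simp
    · -- membership descriptions
      have hmemA0 : ∀ x, x ∈ A none ↔ (x = u ∨ x = v) := by intro x; simp [A]
      have hmemB0 : ∀ x, x ∈ B none ↔ (x ∈ I ∧ G.Adj u x) := by intro x; simp [B]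
      have hmemA1 : ∀ (w : {w : Fin n // w ∉ S}) x, x ∈ A (some w) ↔ x = w.1 := by
        intro w x; simp [A]
      have hmemB1 : ∀ (w : {w : Fin n // w ∉ S}) x,
          x ∈ B (some w) ↔ (G.Adj w.1 x ∧ (x ∈ S ∨ x < w.1)) := by
        intro w x; simp [B]
      have hSmem : ∀ x, x ∈ S ↔ (x = u ∨ x = v ∨ x ∈ I) := by intro x; simp [hS]
      -- main symmetric statement
      have key : ∀ x y : Fin n, G.Adj x y → (x ∈ A none ∧ y ∈ B none) ∨
          (∃ w : {w : Fin n // w ∉ S}, x ∈ A (some w) ∧ y ∈ B (some w)) ∨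
          (y ∈ A none ∧ x ∈ B none) ∨
          (∃ w : {w : Fin n // w ∉ S}, y ∈ A (some w) ∧ x ∈ B (some w)) := by
        intro x y hxy
        by_cases hx : x ∈ S
        · by_cases hy : y ∈ S
          · rw [hSmem] at hx hy
            rcases hx with rfl | rfl | hx
            · rcases hy with rfl | rfl | hy
              · exact absurd hxy (G.loopless.irrefl _)
              · exact absurd hxy hnadj
              · left; exact ⟨(hmemA0 _).2 (Or.inl rfl), (hmemB0 _).2 ⟨hy, hxy⟩⟩
            · rcases hy with rfl | rfl | hy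
              · exact absurd hxy.symm hnadj
              · exact absurd hxy (G.loopless.irrefl _)
              · left; exact ⟨(hmemA0 _).2 (Or.inr rfl), (hmemB0 _).2 ⟨hy, (htw y hy).2 hxy⟩⟩
            · rcases hy with rfl | rfl | hy
              · right; right; left
                exact ⟨(hmemA0 _).2 (Or.inl rfl), (hmemB0 _).2 ⟨hx, hxy.symm⟩⟩
              · right; right; left
                exact ⟨(hmemA0 _).2 (Or.inr rfl), (hmemB0 _).2 ⟨hx, (htw x hx).2 hxy.symm⟩⟩
              · exact absurd hxy (hind x hx y hy)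
          · right; right; right
            exact ⟨⟨y, hy⟩, (hmemA1 _ _).2 rfl, (hmemB1 _ _).2 ⟨hxy.symm, Or.inl hx⟩⟩
        · by_cases hy : y ∈ S
          · right; left
            exact ⟨⟨x, hx⟩, (hmemA1 _ _).2 rfl, (hmemB1 _ _).2 ⟨hxy, Or.inl hy⟩⟩
          · rcases lt_trichotomy x y with h | h | h
            · right; right; right
              exact ⟨⟨y, hy⟩, (hmemA1 _ _).2 rfl, (hmemB1 _ _).2 ⟨hxy.symm, Or.inr h⟩⟩
            · exact absurd h (G.ne_of_adj hxy)
            · right; left
              exact ⟨⟨x, hx⟩, (hmemA1 _ _).2 rfl, (hmemB1 _ _).2 ⟨hxy, Or.inr h⟩⟩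
      have hAS : ∀ x, x ∈ A none → x ∈ S := by
        intro x hx; rw [hmemA0] at hx; rw [hSmem]; tauto
      have hBS : ∀ x, x ∈ B none → x ∈ S := by
        intro x hx; rw [hmemB0] at hx; rw [hSmem]; tauto
      have uniq : ∀ x y : Fin n, ∀ i j : ι, ((x ∈ A i ∧ y ∈ B i) ∨ (y ∈ A i ∧ x ∈ B i)) →
          ((x ∈ A j ∧ y ∈ B j) ∨ (y ∈ A j ∧ x ∈ B j)) → i = j := by
        intro x y i j hi hj
        -- from `none` both in S, from `some w` the vertex w is one of them, not in S
        rcases i with _ | w
        · rcases j with _ | w'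
          · rfl
          · exfalso
            have hxS : x ∈ S ∧ y ∈ S := by
              rcases hi with hi | hi
              · exact ⟨hAS _ hi.1, hBS _ hi.2⟩
              · exact ⟨hBS _ hi.2, hAS _ hi.1⟩
            rcases hj with hj | hj
            · rw [hmemA1] at hj; exact w'.2 (hj.1 ▸ hxS.1)
            · rw [hmemA1] at hj; exact w'.2 (hj.1 ▸ hxS.2)
        · rcases j with _ | w'
          · exfalso
            have hxS : x ∈ S ∧ y ∈ S := by
              rcases hj with hj | hj
              · exact ⟨hAS _ hj.1, hBS _ hj.2⟩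
              · exact ⟨hBS _ hj.2, hAS _ hj.1⟩
            rcases hi with hi | hi
            · rw [hmemA1] at hi; exact w.2 (hi.1 ▸ hxS.1)
            · rw [hmemA1] at hi; exact w.2 (hi.1 ▸ hxS.2)
          · have hww : w = w' := by
              apply Subtype.ext
              rcases hi with hi | hi
              · rcases hj with hj | hj
                · rw [hmemA1] at hi hj; rw [← hi.1, ← hj.1]
                · exfalso
                  rw [hmemA1, hmemB1] at hi hj
                  obtain ⟨h1, h2, h3⟩ := hi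
                  obtain ⟨k1, k2, k3⟩ := hj
                  rcases h3 with h3 | h3
                  · exact w'.2 (k1 ▸ h3)
                  · rcases k3 with k3 | k3
                    · exact w.2 (h1 ▸ k3)
                    · rw [← h1] at h3; rw [← k1] at k3
                      exact absurd (lt_trans h3 k3) (lt_irrefl _)
              · rcases hj with hj | hj
                · exfalso
                  rw [hmemA1, hmemB1] at hi hj
                  obtain ⟨h1, h2, h3⟩ := hi
                  obtain ⟨k1, k2, k3⟩ := hj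
                  rcases h3 with h3 | h3
                  · exact w'.2 (k1 ▸ h3)
                  · rcases k3 with k3 | k3
                    · exact w.2 (h1 ▸ k3)
                    · rw [← h1] at h3; rw [← k1] at k3
                      exact absurd (lt_trans h3 k3) (lt_irrefl _)
                · rw [hmemA1] at hi hj; rw [← hi.1, ← hj.1]
            rw [hww]
      intro x y
      constructor
      · intro hxy
        rcases key x y hxy with h | ⟨w, h⟩ | h | ⟨w, h⟩
        · exact ⟨none, Or.inl h, fun j hj => uniq x y j none hj (Or.inl h)⟩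
        · exact ⟨some w, Or.inl h, fun j hj => uniq x y j (some w) hj (Or.inl h)⟩
        · exact ⟨none, Or.inr h, fun j hj => uniq x y j none hj (Or.inr h)⟩
        · exact ⟨some w, Or.inr h, fun j hj => uniq x y j (some w) hj (Or.inr h)⟩
      · intro hxy i hi
        rcases i with _ | w
        · rw [hmemA0, hmemB0] at hi
          obtain ⟨h1 | h1, h2, h3⟩ := hi
          · subst h1; exact hxy h3
          · subst h1; exact hxy ((htw y h2).1 h3)
        · rw [hmemA1, hmemB1] at hi
          obtain ⟨h1, h2, _⟩ := hi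
          rw [h1] at hxy; exact hxy h2
  let e : Fin (n - m - 1) ≃ ι := (Fintype.equivFinOfCardEq hcard).symm
  exact ⟨A ∘ e, B ∘ e, hpart.congr e⟩

/-- In the presence of the structure, and when there is no independent set of size `m+1`, the
biclique partition number is not `n - α(G)`. -/
theorem bc_ne {n m : ℕ} (G : SimpleGraph (Fin n)) (I : Finset (Fin n)) (hI : I.card = m)
    (hind : ∀ x ∈ I, ∀ y ∈ I, ¬ G.Adj x y) (u v : Fin n) (hu : u ∉ I) (hv : v ∉ I)
    (huv : u ≠ v) (hnadj : ¬ G.Adj u v) (htw : ∀ w ∈ I, (G.Adj u w ↔ G.Adj v w))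
    (hno : ¬ ∃ J : Finset (Fin n), J.card = m + 1 ∧ ∀ x ∈ J, ∀ y ∈ J, ¬ G.Adj x y) :
    sInf {k : ℕ | ∃ A B : Fin k → Finset (Fin n),
              (∀ i, Disjoint (A i) (B i)) ∧
              ∀ u v : Fin n,
                (G.Adj u v → ∃! i, (u ∈ A i ∧ v ∈ B i) ∨ (v ∈ A i ∧ u ∈ B i)) ∧
                (¬ G.Adj u v → ∀ i, ¬ (u ∈ A i ∧ v ∈ B i))}
            ≠ n - Gᶜ.cliqueNum := by
  obtain ⟨hle, A, B, hAB⟩ := exists_part G I hI hind u v hu hv huv hnadj htw
  have h1 : sInf {k : ℕ | ∃ A B : Fin k → Finset (Fin n),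
              (∀ i, Disjoint (A i) (B i)) ∧
              ∀ u v : Fin n,
                (G.Adj u v → ∃! i, (u ∈ A i ∧ v ∈ B i) ∨ (v ∈ A i ∧ u ∈ B i)) ∧
                (¬ G.Adj u v → ∀ i, ¬ (u ∈ A i ∧ v ∈ B i))} ≤ n - m - 1 :=
    Nat.sInf_le ⟨A, B, hAB⟩
  have h2 : Gᶜ.cliqueNum ≤ m := by
    by_contra hcon
    push Not at hcon
    obtain ⟨s, hs⟩ := Gᶜ.exists_isNClique_cliqueNum
    obtain ⟨J, hJs, hJ⟩ := Finset.exists_subset_card_eq (s := s) (n := m + 1)
      (by rw [hs.card_eq]; omega)
    apply hno
    refine ⟨J, hJ, ?_⟩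
    intro x hx y hy hxy
    have hne := G.ne_of_adj hxy
    have := hs.isClique (hJs hx) (hJs hy) hne
    rw [SimpleGraph.compl_adj] at this
    exact this.2 hxy
  omega

end Pool.Agent.U523.BC
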