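import Pool.Agent.U523.BC.Asym3
import Pool.Agent.U523.BC.Graph

set_option autoImplicit false
open scoped Classical
open Filter Topology

namespace Pool.Agent.U523.BC

theorem TT_ne_zero {n : ℕ} {I : Finset (Fin n)} {u v : Fin n} {ω : Sym2 (Fin n) → Bool}
    (h : TT I u v ω ≠ 0) :
    (∀ x ∈ I, ∀ y ∈ I, ¬ (graphOf ω).Adj x y) ∧ ω s(u, v) = false ∧
      ∀ w ∈ I, ω s(u, w) = ω s(v, w) := by
  unfold TT at h
  have h1 := left_ne_zero_of_mul h
  have h2 := left_ne_zero_of_mul (right_ne_zero_of_mul h)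
  have h3 := right_ne_zero_of_mul (right_ne_zero_of_mul h)
  refine ⟨?_, ?_, ?_⟩
  · intro x hx y hy hadj
    rw [graphOf_adj] at hadj
    have hmem : s(x, y) ∈ prs I := (mem_prs I x y).2 ⟨hx, hy, hadj.1⟩
    unfold JJ at h1
    have := Finset.prod_ne_zero_iff.1 h1 _ hmem
    rw [hadj.2] at this
    simp at this
  · unfold nad at h2
    by_contra hc
    rw [Bool.not_eq_false] at hc
    rw [hc] at h2
    simp at h2
  · intro w hw
    have := Finset.prod_ne_zero_iff.1 h3 w hw
    unfold tw at this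
    by_contra hc
    rw [if_neg hc] at this
    exact this rfl

theorem JJ_eq_one {n : ℕ} {J : Finset (Fin n)} {ω : Sym2 (Fin n) → Bool}
    (h : ∀ x ∈ J, ∀ y ∈ J, ¬ (graphOf ω).Adj x y) : JJ J ω = 1 := by
  unfold JJ
  apply Finset.prod_eq_one
  intro e he
  induction e using Sym2.ind with
  | _ x y =>
    rw [mem_prs] at he
    have := h x he.1 y he.2.1
    rw [graphOf_adj] at this
    have h2 : ¬ ω s(x, y) = true := fun hc => this ⟨he.2.2, hc⟩
    rw [if_neg h2]

theorem one_le_XX {n k : ℕ} {ω : Sym2 (Fin n) → Bool}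
    (h : ∃ J : Finset (Fin n), J.card = k ∧ ∀ x ∈ J, ∀ y ∈ J, ¬ (graphOf ω).Adj x y) :
    1 ≤ XX n k ω := by
  obtain ⟨J, hJ, hind⟩ := h
  unfold XX
  rw [← JJ_eq_one hind]
  exact Finset.single_le_sum (f := fun I => JJ I ω) (fun I _ => JJ_nonneg I ω)
    (Finset.mem_powersetCard.2 ⟨Finset.subset_univ _, hJ⟩)

theorem XX_nonneg {n k : ℕ} (ω : Sym2 (Fin n) → Bool) : 0 ≤ XX n k ω := by
  unfold XX
  exact Finset.sum_nonneg fun I _ => JJ_nonneg I ω

/-- the frozen event -/
def Hit (n : ℕ) (G : SimpleGraph (Fin n)) : Prop :=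
  sInf {k : ℕ | ∃ A B : Fin k → Finset (Fin n),
              (∀ i, Disjoint (A i) (B i)) ∧
              ∀ u v : Fin n,
                (G.Adj u v → ∃! i, (u ∈ A i ∧ v ∈ B i) ∨ (v ∈ A i ∧ u ∈ B i)) ∧
                (¬ G.Adj u v → ∀ i, ¬ (u ∈ A i ∧ v ∈ B i))}
            = n - Gᶜ.cliqueNum

theorem pointwise {n m : ℕ} (A B₁ B₂ : Finset (Fin n)) (hA1 : Disjoint A B₁)
    (hA2 : Disjoint A B₂) (h12 : Disjoint B₁ B₂) (ω : Sym2 (Fin n) → Bool) :
    (if Hit n (graphOf ω) then (1:ℝ) else 0) ≤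
      1 - (if YY m A B₁ B₂ ω = 0 then 0 else 1) + XX n (m + 1) ω := by
  have hX := XX_nonneg (k := m + 1) ω
  by_cases hY : YY m A B₁ B₂ ω = 0
  · rw [if_pos hY]
    split_ifs <;> linarith
  · rw [if_neg hY]
    by_cases hno : ∃ J : Finset (Fin n), J.card = m + 1 ∧ ∀ x ∈ J, ∀ y ∈ J, ¬ (graphOf ω).Adj x y
    · have := one_le_XX hno
      split_ifs <;> linarith
    · have hnot : ¬ Hit n (graphOf ω) := by
        unfold YY at hY
        obtain ⟨I, hI, h1⟩ := Finset.exists_ne_zero_of_sum_ne_zero hY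
        obtain ⟨u, hu, h2⟩ := Finset.exists_ne_zero_of_sum_ne_zero h1
        obtain ⟨v, hv, h3⟩ := Finset.exists_ne_zero_of_sum_ne_zero h2
        rw [Finset.mem_powersetCard] at hI
        obtain ⟨t1, t2, t3⟩ := TT_ne_zero h3
        have huI : u ∉ I := fun h => Finset.disjoint_left.1 hA1 (hI.1 h) hu
        have hvI : v ∉ I := fun h => Finset.disjoint_left.1 hA2 (hI.1 h) hv
        have huv : u ≠ v := by rintro rfl; exact Finset.disjoint_left.1 h12 hu hv
        have := bc_ne (graphOf ω) I hI.2 t1 u v huI hvI huv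
          (by rw [graphOf_adj]; rintro ⟨-, h⟩; rw [t2] at h; exact absurd h (by decide))
          (by
            intro w hw
            rw [graphOf_adj, graphOf_adj, t3 w hw]
            have hu' : u ≠ w := by rintro rfl; exact huI hw
            have hv' : v ≠ w := by rintro rfl; exact hvI hw
            simp [hu', hv']) hno
        exact this
      rw [if_neg hnot]
      linarith

section
variable {k : ℕ} (hg : Good k)
include hg

theorem Good.second (A B₁ B₂ : Finset (Fin (300 * beta k))) (hA : A.card = 298 * beta k)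
    (h1 : B₁.card = beta k) (h2 : B₂.card = beta k) (hA1 : Disjoint A B₁) (hA2 : Disjoint A B₂)
    (h12 : Disjoint B₁ B₂) :
    1 ≤ 2 * EE (24/49) (fun ω => if YY (2 * k) A B₁ B₂ ω = 0 then 0 else 1) := by
  have e2 : ((24/49 : ℝ) ^ 2 + (1 - 24/49) ^ 2) = 1201/2401 := by norm_num
  have e1 : (1 - (24/49 : ℝ)) = 25/49 := by norm_num
  have hb : (0:ℝ) < beta k := by exact_mod_cast hg.beta_pos
  have hN : (0:ℝ) < ((298 * beta k).choose (2 * k) : ℝ) := by
    exact_mod_cast Nat.choose_pos hg.lt_a.le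
  have hE := EE_YY (24/49) A B₁ B₂ hA h1 h2 hA1 hA2 h12 (m := 2 * k)
  rw [e2, e1] at hE
  apply second_moment (by norm_num) (by norm_num)
  · refine (EE_YY_sq (by norm_num) (by norm_num) A B₁ B₂ hA h1 h2 hA1 hA2 h12).trans ?_
    have hsum : ∑ i ∈ Finset.range (2 * k + 1), ((2 * k).choose i : ℝ) *
          ((298 * beta k).choose (2 * k - i)) *
          ((1 - (24/49 : ℝ)) ^ (2 * (2 * k).choose 2 - i.choose 2) * GG (24/49) (beta k) (2 * k) i)
        = ((25/49 : ℝ) ^ (2 * (2 * k).choose 2) * ((beta k : ℝ) ^ 2 *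
          ((25/49) ^ 2 * (1201/2401) ^ (2 * (2 * k))))) *
          ∑ i ∈ Finset.range (2 * k + 1), ((2 * k).choose i : ℝ) *
          ((298 * beta k).choose (2 * k - i)) * ((49/25 : ℝ) ^ (i.choose 2) * RR (beta k) i) := by
      rw [Finset.mul_sum]
      apply Finset.sum_congr rfl
      intro i hi
      rw [Finset.mem_range] at hi
      rw [term_eq (beta k) (2 * k) i hg.beta_pos (by omega)]
      ring
    rw [hsum, hE]
    have hm := hg.main
    calc ((298 * beta k).choose (2 * k) : ℝ) * beta k * beta k *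
          (((25/49 : ℝ) ^ (2 * (2 * k).choose 2) * ((beta k : ℝ) ^ 2 *
          ((25/49) ^ 2 * (1201/2401) ^ (2 * (2 * k))))) *
          ∑ i ∈ Finset.range (2 * k + 1), ((2 * k).choose i : ℝ) *
          ((298 * beta k).choose (2 * k - i)) * ((49/25 : ℝ) ^ (i.choose 2) * RR (beta k) i))
        ≤ ((298 * beta k).choose (2 * k) : ℝ) * beta k * beta k *
          (((25/49 : ℝ) ^ (2 * (2 * k).choose 2) * ((beta k : ℝ) ^ 2 *
          ((25/49) ^ 2 * (1201/2401) ^ (2 * (2 * k))))) *
          (2 * ((298 * beta k).choose (2 * k) : ℝ))) := by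
          apply mul_le_mul_of_nonneg_left _ (by positivity)
          exact mul_le_mul_of_nonneg_left hm (by positivity)
      _ = _ := by
          rw [mul_pow, mul_pow, mul_pow, mul_pow, mul_pow, ← pow_mul, ← pow_mul,
            mul_comm ((2 * k).choose 2) 2, mul_comm (2 * k) 2]
          ring
  · rw [hE]
    positivity

theorem Good.bound : ∑ G : SimpleGraph (Fin (300 * beta k)),
      (if Hit (300 * beta k) G then (24/49 : ℝ) ^ G.edgeFinset.card *
        (1 - 24/49) ^ ((300 * beta k).choose 2 - G.edgeFinset.card) else 0) ≤ 3/4 := by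
  set β := beta k with hβ
  have hβ0 : 0 < β := hg.beta_pos
  -- the vertex sets
  have hcard : ∀ (lo hi : ℕ), lo ≤ hi → hi ≤ 300 * β →
      ((Finset.univ : Finset (Fin (300 * β))).filter (fun x => lo ≤ x.val ∧ x.val < hi)).card
        = hi - lo := by
    intro lo hi h1 h2
    have : ((Finset.univ : Finset (Fin (300 * β))).filter
        (fun x => lo ≤ x.val ∧ x.val < hi)).map Fin.valEmbedding = Finset.Ico lo hi := by
      ext x
      simp only [Finset.mem_map, Finset.mem_filter, Finset.mem_univ, true_and,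
        Fin.valEmbedding_apply, Finset.mem_Ico]
      constructor
      · rintro ⟨y, hy, rfl⟩; exact hy
      · intro hx
        exact ⟨⟨x, by omega⟩, hx, rfl⟩
    rw [← Finset.card_map Fin.valEmbedding, this, Nat.card_Ico]
  set A := (Finset.univ : Finset (Fin (300 * β))).filter (fun x => 0 ≤ x.val ∧ x.val < 298 * β)
    with hAdef
  set B₁ := (Finset.univ : Finset (Fin (300 * β))).filter
    (fun x => 298 * β ≤ x.val ∧ x.val < 299 * β) with hB1def
  set B₂ := (Finset.univ : Finset (Fin (300 * β))).filter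
    (fun x => 299 * β ≤ x.val ∧ x.val < 300 * β) with hB2def
  have hA : A.card = 298 * β := by rw [hAdef, hcard _ _ (by omega) (by omega)]; omega
  have h1 : B₁.card = β := by rw [hB1def, hcard _ _ (by omega) (by omega)]; omega
  have h2 : B₂.card = β := by rw [hB2def, hcard _ _ (by omega) (by omega)]; omega
  have hA1 : Disjoint A B₁ := by
    rw [Finset.disjoint_left]
    intro x hx
    simp only [hAdef, hB1def, Finset.mem_filter, Finset.mem_univ, true_and] at hx ⊢
    omega
  have hA2 : Disjoint A B₂ := by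
    rw [Finset.disjoint_left]
    intro x hx
    simp only [hAdef, hB2def, Finset.mem_filter, Finset.mem_univ, true_and] at hx ⊢
    omega
  have h12 : Disjoint B₁ B₂ := by
    rw [Finset.disjoint_left]
    intro x hx
    simp only [hB1def, hB2def, Finset.mem_filter, Finset.mem_univ, true_and] at hx ⊢
    omega
  have hsec := hg.second A B₁ B₂ hA h1 h2 hA1 hA2 h12
  have hfirst := hg.first
  rw [← hβ] at hfirst
  have hpush := push (n := 300 * β) (24/49) (fun G => if Hit (300 * β) G then (1:ℝ) else 0)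
  have hEE : EE (24/49) (fun ω => if Hit (300 * β) (graphOf ω) then (1:ℝ) else 0) ≤ 3/4 := by
    have hmono := EE_mono (p := 24/49) (by norm_num) (by norm_num)
      (pointwise (m := 2 * k) A B₁ B₂ hA1 hA2 h12)
    refine hmono.trans ?_
    have e1 : EE (24/49) (fun ω : Sym2 (Fin (300 * β)) → Bool =>
        (1:ℝ) - (if YY (2 * k) A B₁ B₂ ω = 0 then 0 else 1) + XX (300 * β) (2 * k + 1) ω) =
        1 - EE (24/49) (fun ω => if YY (2 * k) A B₁ B₂ ω = 0 then 0 else 1) +
          EE (24/49) (XX (300 * β) (2 * k + 1)) := by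
      rw [EE_add (24/49) (fun ω : Sym2 (Fin (300 * β)) → Bool =>
        (1:ℝ) - (if YY (2 * k) A B₁ B₂ ω = 0 then 0 else 1)) (XX (300 * β) (2 * k + 1)),
        EE_sub (24/49) (fun _ => 1), EE_one]
    rw [e1, EE_XX]
    linarith
  rw [hpush] at hEE
  refine le_trans (le_of_eq ?_) hEE
  apply Finset.sum_congr rfl
  intro G _
  split_ifs
  · rw [one_mul]
  · rw [zero_mul]

end

theorem tendsto_size : Tendsto (fun k : ℕ => 300 * beta k) atTop atTop := by
  have h1 : Tendsto (fun k : ℕ => (k : ℝ)) atTop atTop := tendsto_natCast_atTop_atTop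
  have h2 : ∀ᶠ k in atTop, (k : ℕ) ≤ 300 * beta k := by
    filter_upwards [eventually_good] with k hg
    have h3 := hg.beta_ge
    have h4 := hg.z2
    have : (k : ℝ) ≤ 300 * (beta k : ℝ) := by
      have h5 := hg.ZZ_pos
      linarith
    exact_mod_cast this
  exact tendsto_atTop_mono' _ h2 tendsto_id

end Pool.Agent.U523.BC
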