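import Pool.Agent.U523.BC.Sum

set_option autoImplicit false
open scoped Classical
open Filter Topology

namespace Pool.Agent.U523.BC

theorem fact_upper (m : ℕ) (hm : 1 ≤ m) :
    (m.factorial : ℝ) ≤ Real.exp 1 * m * (m / Real.exp 1) ^ m := by
  obtain ⟨k, rfl⟩ : ∃ k, m = k + 1 := ⟨m - 1, by omega⟩
  have h := Stirling.stirlingSeq'_antitone (Nat.zero_le k)
  simp only [Function.comp, Nat.succ_eq_add_one, zero_add, Stirling.stirlingSeq_one] at h
  unfold Stirling.stirlingSeq at h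
  have hk : (0:ℝ) < ((k + 1 : ℕ) : ℝ) := by positivity
  have hpos : 0 < √(2 * ((k + 1 : ℕ) : ℝ)) * (((k + 1 : ℕ) : ℝ) / Real.exp 1) ^ (k + 1) := by
    positivity
  rw [div_le_iff₀ hpos] at h
  have h2 : Real.exp 1 / √2 * (√(2 * ((k + 1 : ℕ) : ℝ)) * (((k + 1 : ℕ) : ℝ) / Real.exp 1) ^ (k + 1))
      = Real.exp 1 * √((k + 1 : ℕ) : ℝ) * (((k + 1 : ℕ) : ℝ) / Real.exp 1) ^ (k + 1) := by
    rw [Real.sqrt_mul (by norm_num)]
    have : √(2:ℝ) ≠ 0 := by positivity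
    field_simp
  rw [h2] at h
  refine h.trans ?_
  have h3 : √((k + 1 : ℕ) : ℝ) ≤ ((k + 1 : ℕ) : ℝ) := by
    rw [Real.sqrt_le_left (by positivity)]
    have : (1:ℝ) ≤ ((k + 1 : ℕ) : ℝ) := by push_cast; linarith [Nat.cast_nonneg (α := ℝ) k]
    nlinarith
  apply mul_le_mul_of_nonneg_right _ (by positivity)
  exact mul_le_mul_of_nonneg_left h3 (by positivity)

theorem choose_lower (a m : ℕ) (h : m ≤ a) :
    ((a : ℝ) - m) ^ m ≤ (m.factorial : ℝ) * (a.choose m : ℝ) := by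
  have h1 := Nat.pow_sub_le_descFactorial a m
  rw [Nat.descFactorial_eq_factorial_mul_choose] at h1
  have h2 : (((a + 1 - m : ℕ) : ℝ)) ^ m ≤ (m.factorial : ℝ) * (a.choose m : ℝ) := by
    exact_mod_cast h1
  refine le_trans ?_ h2
  have h3 : ((a + 1 - m : ℕ) : ℝ) = (a : ℝ) + 1 - m := by
    rw [Nat.cast_sub (by omega)]; push_cast; ring
  rw [h3]
  apply pow_le_pow_left₀
  · have : (m : ℝ) ≤ a := by exact_mod_cast h
    linarith
  · linarith

theorem choose_sub_le (a m : ℕ) (h : m < a) (i : ℕ) (hi : i ≤ m) :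
    (a.choose (m - i) : ℝ) ≤ a.choose m * ((m : ℝ) / ((a : ℝ) - m)) ^ i := by
  have ham : (0:ℝ) < (a : ℝ) - m := by
    have : (m : ℝ) < a := by exact_mod_cast h
    linarith
  induction i with
  | zero => simp
  | succ i ih =>
    have ih' := ih (by omega)
    obtain ⟨j, hj⟩ : ∃ j, m - i = j + 1 := ⟨m - i - 1, by omega⟩
    have hj' : m - (i + 1) = j := by omega
    rw [hj] at ih'
    rw [hj']
    have hc := Nat.choose_succ_right_eq a j
    have hja : j ≤ a := by omega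
    have hc' : (a.choose (j + 1) : ℝ) * (j + 1) = a.choose j * ((a : ℝ) - j) := by
      rw [← Nat.cast_sub hja]; exact_mod_cast hc
    have hjm : (j : ℝ) + 1 ≤ m := by
      have : j + 1 ≤ m := by omega
      exact_mod_cast this
    have haj : (a : ℝ) - m ≤ (a : ℝ) - j := by linarith
    have haj0 : (0:ℝ) < (a : ℝ) - j := by linarith
    have e1 : (a.choose j : ℝ) = a.choose (j + 1) * ((j + 1) / ((a : ℝ) - j)) := by
      field_simp
      linarith
    rw [e1, pow_succ, ← mul_assoc]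
    apply mul_le_mul ih' _ (by positivity) (by positivity)
    apply div_le_div₀ (by positivity) hjm ham haj

theorem pow_choose2 (i : ℕ) : ((49:ℝ)/25) ^ (i.choose 2) = (7/5) ^ (i * (i - 1)) := by
  have h : i * (i - 1) = 2 * i.choose 2 := by
    rw [Nat.choose_two_right]
    exact (Nat.mul_div_cancel' (Nat.even_mul_pred_self i).two_dvd).symm
  rw [h, pow_mul]
  norm_num

/-- correction factor -/
noncomputable def RR (β : ℝ) (i : ℕ) : ℝ :=
  1 + (2 / β) * ((29449/117649 : ℝ) / (1201/2401) ^ 2) ^ i +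
    (49 / (25 * β ^ 2)) * (2401/1201 : ℝ) ^ i

theorem term_eq (β m i : ℕ) (hβ : 0 < β) (hi : i ≤ m) :
    (1 - (24/49 : ℝ)) ^ (2 * m.choose 2 - i.choose 2) * GG (24/49) β m i =
      ((25/49 : ℝ) ^ (2 * m.choose 2) * ((β : ℝ) ^ 2 * ((25/49) ^ 2 * (1201/2401) ^ (2 * m)))) *
        ((49/25 : ℝ) ^ (i.choose 2) * RR β i) := by
  have hβ' : (β : ℝ) ≠ 0 := by positivity
  have hch : i.choose 2 ≤ 2 * m.choose 2 := by
    have := Nat.choose_le_choose 2 hi
    omega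
  have e1 : (1 - (24/49 : ℝ)) = 25/49 := by norm_num
  have e2 : ((24/49 : ℝ) ^ 2 + (25/49) ^ 2) = 1201/2401 := by norm_num
  have e3 : ((24/49 : ℝ) ^ 3 + (25/49) ^ 3) = 29449/117649 := by norm_num
  unfold GG RR
  rw [e1, e2, e3]
  have p1 : (25/49 : ℝ) ^ (2 * m.choose 2 - i.choose 2) =
      (25/49 : ℝ) ^ (2 * m.choose 2) * (49/25 : ℝ) ^ (i.choose 2) := by
    have : (25/49 : ℝ) ^ (2 * m.choose 2) =
        (25/49 : ℝ) ^ (2 * m.choose 2 - i.choose 2) * (25/49 : ℝ) ^ (i.choose 2) := by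
      rw [← pow_add]; congr 1; omega
    rw [this, mul_assoc, ← mul_pow]
    norm_num
  have p2 : (1201/2401 : ℝ) ^ (2 * m) = (1201/2401 : ℝ) ^ (2 * (m - i)) * ((1201/2401) ^ 2) ^ i := by
    rw [← pow_mul, ← pow_add]; congr 1; omega
  have p3 : ((29449/117649 : ℝ) / (1201/2401) ^ 2) ^ i * ((1201/2401 : ℝ) ^ 2) ^ i =
      (29449/117649 : ℝ) ^ i := by
    rw [← mul_pow]; norm_num
  have p4 : (2401/1201 : ℝ) ^ i * ((1201/2401 : ℝ) ^ 2) ^ i = (1201/2401 : ℝ) ^ i := by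
    rw [← mul_pow]; norm_num
  rw [p1, p2, ← p3, ← p4]
  generalize (25/49 : ℝ) ^ (2 * m.choose 2) = Q
  generalize (49/25 : ℝ) ^ (i.choose 2) = T
  generalize (1201/2401 : ℝ) ^ (2 * (m - i)) = S
  generalize ((1201/2401 : ℝ) ^ 2) ^ i = W
  generalize ((29449/117649 : ℝ) / (1201/2401) ^ 2) ^ i = U
  generalize (2401/1201 : ℝ) ^ i = V
  field_simp

end Pool.Agent.U523.BC
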