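import Pool.Agent.U523.BC.Asym1

set_option autoImplicit false
open scoped Classical
open Filter Topology

namespace Pool.Agent.U523.BC

/-- the size parameter -/
noncomputable def ZZ (k : ℕ) : ℝ := (2 * k : ℝ) * (49/25 : ℝ) ^ k

/-- the sizes of the two vertex sets from which twins are taken -/
noncomputable def beta (k : ℕ) : ℕ := ⌊ZZ k / 1000⌋₊

theorem ZZ_nonneg (k : ℕ) : 0 ≤ ZZ k := by unfold ZZ; positivity

theorem beta_le (k : ℕ) : (beta k : ℝ) ≤ ZZ k / 1000 :=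
  Nat.floor_le (by have := ZZ_nonneg k; positivity)

theorem lt_beta (k : ℕ) : ZZ k / 1000 - 1 < (beta k : ℝ) := by
  have := Nat.lt_floor_add_one (ZZ k / 1000)
  unfold beta
  linarith

/-- all the numerical conditions on `k` -/
structure Good (k : ℕ) : Prop where
  k1 : 1 ≤ k
  z1 : 1001000 ≤ ZZ k
  z2 : 298 + 2 * (k : ℝ) ≤ ZZ k / 1000
  c1 : 7 * (k : ℝ) ^ 2 * (5/7 : ℝ) ^ k ≤ 1/8
  c2 : 2 * (k : ℝ) ^ 2 ≤ (7/5 : ℝ) ^ k
  c3 : 1001 * (1001/1000 * (25/49) : ℝ) ^ k ≤ 1/4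
  c4 : 2000000 * (2 * (25/49) ^ 2 : ℝ) ^ k ≤ 1/4
  c5 : 1001 * ((1001/1000) ^ 2 * (25/49) : ℝ) ^ k ≤ 1
  c6 : (k : ℝ) ^ 2 * (24 * ((100/113 : ℝ) ^ 2) ^ k + 24000000 * ((102/113 : ℝ) ^ 2) ^ k) ≤ 1/4

theorem tendsto_aux (C r : ℝ) (j : ℕ) (hr : |r| < 1) :
    Tendsto (fun k : ℕ => C * (k : ℝ) ^ j * r ^ k) atTop (𝓝 0) := by
  have := (tendsto_pow_const_mul_const_pow_of_abs_lt_one j hr).const_mul C
  rw [mul_zero] at this
  refine this.congr fun k => by ring

theorem eventually_good : ∀ᶠ k : ℕ in atTop, Good k := by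
  have hZ : Tendsto ZZ atTop atTop := by
    unfold ZZ
    have h1 : Tendsto (fun k : ℕ => (49/25 : ℝ) ^ k) atTop atTop :=
      tendsto_pow_atTop_atTop_of_one_lt (by norm_num)
    refine tendsto_atTop_mono' _ ?_ h1
    filter_upwards [eventually_ge_atTop 1] with k hk
    have : (1:ℝ) ≤ k := by exact_mod_cast hk
    have h2 : (0:ℝ) < (49/25 : ℝ) ^ k := by positivity
    nlinarith
  have e1 : ∀ᶠ k : ℕ in atTop, 7 * (k : ℝ) ^ 2 * (5/7 : ℝ) ^ k ≤ 1/8 := by
    have := tendsto_aux 7 (5/7) 2 (by rw [abs_lt]; constructor <;> norm_num)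
    filter_upwards [this.eventually_le_const (show (0:ℝ) < 1/8 by norm_num)] with k hk using hk
  have e2 : ∀ᶠ k : ℕ in atTop, 2 * (k : ℝ) ^ 2 ≤ (7/5 : ℝ) ^ k := by
    have := tendsto_aux 2 (5/7) 2 (by rw [abs_lt]; constructor <;> norm_num)
    filter_upwards [this.eventually_le_const (show (0:ℝ) < 1 by norm_num)] with k hk
    have h3 : (5/7 : ℝ) ^ k * (7/5 : ℝ) ^ k = 1 := by rw [← mul_pow]; norm_num
    have h4 : (0:ℝ) < (7/5 : ℝ) ^ k := by positivity
    calc 2 * (k : ℝ) ^ 2 = (2 * (k : ℝ) ^ 2 * (5/7 : ℝ) ^ k) * (7/5 : ℝ) ^ k := by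
          rw [mul_assoc, h3, mul_one]
      _ ≤ 1 * (7/5 : ℝ) ^ k := mul_le_mul_of_nonneg_right hk h4.le
      _ = _ := one_mul _
  have e3 : ∀ᶠ k : ℕ in atTop, 1001 * (1001/1000 * (25/49) : ℝ) ^ k ≤ 1/4 := by
    have := tendsto_aux 1001 (1001/1000 * (25/49)) 0 (by rw [abs_lt]; constructor <;> norm_num)
    filter_upwards [this.eventually_le_const (show (0:ℝ) < 1/4 by norm_num)] with k hk
    simpa using hk
  have e4 : ∀ᶠ k : ℕ in atTop, 2000000 * (2 * (25/49) ^ 2 : ℝ) ^ k ≤ 1/4 := by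
    have := tendsto_aux 2000000 (2 * (25/49) ^ 2) 0 (by rw [abs_lt]; constructor <;> norm_num)
    filter_upwards [this.eventually_le_const (show (0:ℝ) < 1/4 by norm_num)] with k hk
    simpa using hk
  have e5 : ∀ᶠ k : ℕ in atTop, 1001 * ((1001/1000) ^ 2 * (25/49) : ℝ) ^ k ≤ 1 := by
    have := tendsto_aux 1001 ((1001/1000) ^ 2 * (25/49)) 0
      (by rw [abs_lt]; constructor <;> norm_num)
    filter_upwards [this.eventually_le_const (show (0:ℝ) < 1 by norm_num)] with k hk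
    simpa using hk
  have e6 : ∀ᶠ k : ℕ in atTop, (k : ℝ) ^ 2 * (24 * ((100/113 : ℝ) ^ 2) ^ k +
      24000000 * ((102/113 : ℝ) ^ 2) ^ k) ≤ 1/4 := by
    have h1 := tendsto_aux 24 ((100/113) ^ 2) 2 (by rw [abs_lt]; constructor <;> norm_num)
    have h2 := tendsto_aux 24000000 ((102/113) ^ 2) 2 (by rw [abs_lt]; constructor <;> norm_num)
    have h3 := h1.add h2
    rw [add_zero] at h3
    filter_upwards [h3.eventually_le_const (show (0:ℝ) < 1/4 by norm_num)] with k hk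
    nlinarith [hk]
  have e7 : ∀ᶠ k : ℕ in atTop, 298 + 2 * (k : ℝ) ≤ ZZ k / 1000 := by
    have h1 := tendsto_aux 300000 (25/49) 1 (by rw [abs_lt]; constructor <;> norm_num)
    filter_upwards [h1.eventually_le_const (show (0:ℝ) < 1 by norm_num), eventually_ge_atTop 1]
      with k hk hk1
    have hk1' : (1:ℝ) ≤ k := by exact_mod_cast hk1
    have h3 : (25/49 : ℝ) ^ k * (49/25 : ℝ) ^ k = 1 := by rw [← mul_pow]; norm_num
    have h4 : (0:ℝ) < (49/25 : ℝ) ^ k := by positivity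
    have h5 : 300000 * (k : ℝ) ≤ (49/25 : ℝ) ^ k := by
      calc 300000 * (k : ℝ) = (300000 * (k : ℝ) ^ 1 * (25/49 : ℝ) ^ k) * (49/25 : ℝ) ^ k := by
            rw [mul_assoc, h3, mul_one, pow_one]
        _ ≤ 1 * (49/25 : ℝ) ^ k := mul_le_mul_of_nonneg_right hk h4.le
        _ = _ := one_mul _
    have h6 : (49/25 : ℝ) ^ k ≤ ZZ k := by unfold ZZ; nlinarith
    rw [le_div_iff₀ (by norm_num)]
    nlinarith
  filter_upwards [e1, e2, e3, e4, e5, e6, e7, eventually_ge_atTop 1,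
    hZ.eventually_ge_atTop 1001000] with k a1 a2 a3 a4 a5 a6 a7 a8 a9
  exact ⟨a8, a9, a7, a1, a2, a3, a4, a5, a6⟩

section
variable {k : ℕ} (hg : Good k)
include hg

theorem Good.beta_ge : ZZ k / 1001 ≤ (beta k : ℝ) := by
  have h1 := lt_beta k
  have h2 := hg.z1
  linarith

theorem Good.beta_pos : 0 < beta k := by
  have h1 := hg.beta_ge
  have h2 := hg.z1
  have : (0:ℝ) < (beta k : ℝ) := by linarith
  exact_mod_cast this

theorem Good.a_sub : 297/1000 * ZZ k ≤ ((298 * beta k : ℕ) : ℝ) - ((2 * k : ℕ) : ℝ) := by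
  have h1 := lt_beta k
  have h2 := hg.z2
  push_cast
  linarith

theorem Good.lt_a : 2 * k < 298 * beta k := by
  have h1 := hg.a_sub
  have h2 := hg.z1
  have : ((2 * k : ℕ) : ℝ) < ((298 * beta k : ℕ) : ℝ) := by linarith
  exact_mod_cast this

/-- first moment of the number of independent sets of size `2k+1` -/
theorem Good.first : (((300 * beta k).choose (2 * k + 1) : ℕ) : ℝ) *
    (1 - (24/49 : ℝ)) ^ ((2 * k + 1).choose 2) ≤ 1/4 := by
  have hk1 : (1:ℝ) ≤ k := by exact_mod_cast hg.k1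
  have e1 : (1 - (24/49 : ℝ)) = 25/49 := by norm_num
  rw [e1]
  have e2 : (2 * k + 1).choose 2 = k * (2 * k + 1) := by
    rw [Nat.choose_two_right]
    have : (2 * k + 1) * (2 * k + 1 - 1) = 2 * (k * (2 * k + 1)) := by
      rw [Nat.add_sub_cancel]; ring
    rw [this, Nat.mul_div_cancel_left _ (by norm_num)]
  rw [e2, pow_mul]
  have h1 := Nat.choose_le_pow_div (α := ℝ) (2 * k + 1) (300 * beta k)
  have hn : ((300 * beta k : ℕ) : ℝ) * (25/49 : ℝ) ^ k ≤ 3/10 * (2 * k) := by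
    have h3 : (25/49 : ℝ) ^ k * (49/25 : ℝ) ^ k = 1 := by rw [← mul_pow]; norm_num
    have h4 := beta_le k
    unfold ZZ at h4
    push_cast
    have h5 : (0:ℝ) < (25/49 : ℝ) ^ k := by positivity
    calc 300 * (beta k : ℝ) * (25/49 : ℝ) ^ k ≤ 300 * (2 * k * (49/25) ^ k / 1000) * (25/49 : ℝ) ^ k := by
          apply mul_le_mul_of_nonneg_right _ h5.le
          linarith
      _ = 3/10 * (2 * k) * ((25/49 : ℝ) ^ k * (49/25 : ℝ) ^ k) := by ring
      _ = _ := by rw [h3, mul_one]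
  calc (((300 * beta k).choose (2 * k + 1) : ℕ) : ℝ) * ((25/49 : ℝ) ^ k) ^ (2 * k + 1)
      ≤ (((300 * beta k : ℕ) : ℝ) ^ (2 * k + 1) / ((2 * k + 1).factorial : ℝ)) *
          ((25/49 : ℝ) ^ k) ^ (2 * k + 1) := mul_le_mul_of_nonneg_right h1 (by positivity)
    _ = (((300 * beta k : ℕ) : ℝ) * (25/49 : ℝ) ^ k) ^ (2 * k + 1) / ((2 * k + 1).factorial : ℝ) := by
        rw [mul_pow]; ring
    _ ≤ (3/10 * (2 * k : ℝ)) ^ (2 * k + 1) / ((2 * k + 1).factorial : ℝ) := by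
        apply div_le_div_of_nonneg_right _ (by positivity)
        exact pow_le_pow_left₀ (by positivity) hn _
    _ = (3/10 : ℝ) ^ (2 * k + 1) * ((2 * k : ℝ) ^ (2 * k + 1) / ((2 * k + 1).factorial : ℝ)) := by
        rw [mul_pow]; ring
    _ ≤ (3/10 : ℝ) ^ (2 * k + 1) * Real.exp (2 * k) := by
        apply mul_le_mul_of_nonneg_left _ (by positivity)
        exact Real.pow_div_factorial_le_exp _ (by positivity) _
    _ = 3/10 * ((3/10 : ℝ) ^ 2 * Real.exp 1 ^ 2) ^ k := by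
        have : Real.exp (2 * k) = (Real.exp 1 ^ 2) ^ k := by
          rw [← pow_mul, ← Real.exp_nat_mul]; push_cast; ring_nf
        rw [this, pow_succ, pow_mul, mul_pow]; ring
    _ ≤ 3/10 * (3/4) ^ k := by
        apply mul_le_mul_of_nonneg_left _ (by norm_num)
        apply pow_le_pow_left₀ (by positivity)
        have := Real.exp_one_lt_d9
        have h0 := Real.exp_pos 1
        nlinarith
    _ ≤ 3/10 * (3/4) ^ 1 := by
        apply mul_le_mul_of_nonneg_left _ (by norm_num)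
        exact pow_le_pow_of_le_one (by norm_num) (by norm_num) hg.k1
    _ ≤ 1/4 := by norm_num

end

end Pool.Agent.U523.BC
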