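import Pool.Agent.U523.BC.Asym2

set_option autoImplicit false
open scoped Classical
open Filter Topology

namespace Pool.Agent.U523.BC

theorem RR_nonneg (β : ℝ) (hβ : 0 ≤ β) (i : ℕ) : 0 ≤ RR β i := by unfold RR; positivity

section
variable {k : ℕ} (hg : Good k)
include hg

theorem Good.ZZ_pos : 0 < ZZ k := by have := hg.z1; linarith

theorem Good.inv_beta : 2 / (beta k : ℝ) ≤ 1001 * (25/49 : ℝ) ^ k := by
  have h1 := hg.beta_ge
  have h2 := hg.ZZ_pos
  have hk1 : (1:ℝ) ≤ k := by exact_mod_cast hg.k1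
  have h3 : (25/49 : ℝ) ^ k * (49/25 : ℝ) ^ k = 1 := by rw [← mul_pow]; norm_num
  have hb : (0:ℝ) < beta k := by exact_mod_cast hg.beta_pos
  rw [div_le_iff₀ hb]
  have h4 : (0:ℝ) < (25/49 : ℝ) ^ k := by positivity
  calc (2:ℝ) ≤ 2 * k := by linarith
    _ = 2 * k * ((25/49 : ℝ) ^ k * (49/25 : ℝ) ^ k) := by rw [h3, mul_one]
    _ = 1001 * (25/49 : ℝ) ^ k * (ZZ k / 1001) := by unfold ZZ; ring
    _ ≤ 1001 * (25/49 : ℝ) ^ k * beta k := by
        apply mul_le_mul_of_nonneg_left h1 (by positivity)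

theorem Good.inv_beta_sq : 49 / (25 * (beta k : ℝ) ^ 2) ≤ 490981 * ((25/49 : ℝ) ^ 2) ^ k := by
  have h1 := hg.inv_beta
  have hb : (0:ℝ) < beta k := by exact_mod_cast hg.beta_pos
  have h2 : (2 / (beta k : ℝ)) ^ 2 ≤ (1001 * (25/49 : ℝ) ^ k) ^ 2 :=
    pow_le_pow_left₀ (by positivity) h1 2
  have e1 : 49 / (25 * (beta k : ℝ) ^ 2) = 49/100 * (2 / (beta k : ℝ)) ^ 2 := by
    field_simp; norm_num
  rw [e1]
  calc 49/100 * (2 / (beta k : ℝ)) ^ 2 ≤ 49/100 * (1001 * (25/49 : ℝ) ^ k) ^ 2 := by linarith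
    _ = 49/100 * 1001^2 * ((25/49 : ℝ) ^ 2) ^ k := by
        rw [mul_pow, ← pow_mul, ← pow_mul, mul_comm k 2]; ring
    _ ≤ _ := by
        apply mul_le_mul_of_nonneg_right (by norm_num) (by positivity)

theorem Good.RR_zero : RR (beta k) 0 ≤ 3/2 := by
  have h1 := hg.beta_ge
  have h2 := hg.z1
  have hb : (1000:ℝ) ≤ beta k := by linarith
  unfold RR
  simp only [pow_zero, mul_one]
  have e1 : 2 / (beta k : ℝ) ≤ 1/4 := by
    rw [div_le_iff₀ (by linarith)]; linarith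
  have e2 : 49 / (25 * (beta k : ℝ) ^ 2) ≤ 1/4 := by
    rw [div_le_iff₀ (by nlinarith)]; nlinarith
  linarith

theorem Good.RR_small {i : ℕ} (hi : i ≤ k) : RR (beta k) i ≤ 2 := by
  have h1 := hg.inv_beta
  have h2 := hg.inv_beta_sq
  have a1 : ((29449/117649 : ℝ) / (1201/2401) ^ 2) ^ i ≤ (1001/1000) ^ k := by
    calc ((29449/117649 : ℝ) / (1201/2401) ^ 2) ^ i ≤ (1001/1000) ^ i :=
          pow_le_pow_left₀ (by positivity) (by norm_num) i
      _ ≤ (1001/1000) ^ k := pow_le_pow_right₀ (by norm_num) hi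
  have a2 : (2401/1201 : ℝ) ^ i ≤ 2 ^ k := by
    calc (2401/1201 : ℝ) ^ i ≤ 2 ^ i := pow_le_pow_left₀ (by positivity) (by norm_num) i
      _ ≤ 2 ^ k := pow_le_pow_right₀ (by norm_num) hi
  have b1 : (2 / (beta k : ℝ)) * ((29449/117649 : ℝ) / (1201/2401) ^ 2) ^ i ≤ 1/4 := by
    calc (2 / (beta k : ℝ)) * ((29449/117649 : ℝ) / (1201/2401) ^ 2) ^ i
        ≤ (1001 * (25/49 : ℝ) ^ k) * (1001/1000) ^ k :=
          mul_le_mul h1 a1 (by positivity) (by positivity)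
      _ = 1001 * (1001/1000 * (25/49) : ℝ) ^ k := by rw [mul_pow]; ring
      _ ≤ 1/4 := hg.c3
  have b2 : (49 / (25 * (beta k : ℝ) ^ 2)) * (2401/1201 : ℝ) ^ i ≤ 1/4 := by
    calc (49 / (25 * (beta k : ℝ) ^ 2)) * (2401/1201 : ℝ) ^ i
        ≤ (490981 * ((25/49 : ℝ) ^ 2) ^ k) * 2 ^ k :=
          mul_le_mul h2 a2 (by positivity) (by positivity)
      _ = 490981 * (2 * (25/49) ^ 2 : ℝ) ^ k := by rw [mul_pow]; ring
      _ ≤ 2000000 * (2 * (25/49) ^ 2 : ℝ) ^ k :=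
          mul_le_mul_of_nonneg_right (by norm_num) (by positivity)
      _ ≤ 1/4 := hg.c4
  unfold RR
  linarith

theorem Good.RR_large {i : ℕ} (hi : i ≤ 2 * k) :
    RR (beta k) i ≤ 2 + 490981 * ((102/100 : ℝ) ^ 2) ^ k := by
  have h1 := hg.inv_beta
  have h2 := hg.inv_beta_sq
  have a1 : ((29449/117649 : ℝ) / (1201/2401) ^ 2) ^ i ≤ ((1001/1000) ^ 2) ^ k := by
    rw [← pow_mul]
    calc ((29449/117649 : ℝ) / (1201/2401) ^ 2) ^ i ≤ (1001/1000) ^ i :=
          pow_le_pow_left₀ (by positivity) (by norm_num) i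
      _ ≤ (1001/1000) ^ (2 * k) := pow_le_pow_right₀ (by norm_num) hi
  have a2 : (2401/1201 : ℝ) ^ i ≤ ((2401/1201) ^ 2) ^ k := by
    rw [← pow_mul]
    exact pow_le_pow_right₀ (by norm_num) hi
  have b1 : (2 / (beta k : ℝ)) * ((29449/117649 : ℝ) / (1201/2401) ^ 2) ^ i ≤ 1 := by
    calc (2 / (beta k : ℝ)) * ((29449/117649 : ℝ) / (1201/2401) ^ 2) ^ i
        ≤ (1001 * (25/49 : ℝ) ^ k) * ((1001/1000) ^ 2) ^ k :=
          mul_le_mul h1 a1 (by positivity) (by positivity)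
      _ = 1001 * ((1001/1000) ^ 2 * (25/49) : ℝ) ^ k := by rw [mul_pow]; ring
      _ ≤ 1 := hg.c5
  have b2 : (49 / (25 * (beta k : ℝ) ^ 2)) * (2401/1201 : ℝ) ^ i ≤
      490981 * ((102/100 : ℝ) ^ 2) ^ k := by
    calc (49 / (25 * (beta k : ℝ) ^ 2)) * (2401/1201 : ℝ) ^ i
        ≤ (490981 * ((25/49 : ℝ) ^ 2) ^ k) * ((2401/1201) ^ 2) ^ k :=
          mul_le_mul h2 a2 (by positivity) (by positivity)
      _ = 490981 * ((25/49) ^ 2 * (2401/1201) ^ 2 : ℝ) ^ k := by rw [mul_pow ((25/49 : ℝ) ^ 2)]; ring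
      _ ≤ 490981 * ((102/100 : ℝ) ^ 2) ^ k := by
          apply mul_le_mul_of_nonneg_left _ (by norm_num)
          exact pow_le_pow_left₀ (by positivity) (by norm_num) k
  unfold RR
  linarith

theorem Good.eps : (((2 * k : ℕ) : ℝ)) ^ 2 * (7/5 : ℝ) ^ k /
    (((298 * beta k : ℕ) : ℝ) - ((2 * k : ℕ) : ℝ)) ≤ 7 * k * (5/7 : ℝ) ^ k := by
  have h1 := hg.a_sub
  have h2 := hg.ZZ_pos
  have hk1 : (1:ℝ) ≤ k := by exact_mod_cast hg.k1
  rw [div_le_iff₀ (by linarith)]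
  have e1 : (49/25 : ℝ) ^ k = (7/5) ^ k * (7/5) ^ k := by rw [← mul_pow]; norm_num
  have e2 : (5/7 : ℝ) ^ k * (7/5) ^ k = 1 := by rw [← mul_pow]; norm_num
  have h3 : (0:ℝ) < (7/5) ^ k := by positivity
  calc (((2 * k : ℕ) : ℝ)) ^ 2 * (7/5 : ℝ) ^ k = 4 * k ^ 2 * (7/5 : ℝ) ^ k := by push_cast; ring
    _ ≤ 4.158 * k ^ 2 * (7/5 : ℝ) ^ k := by
        apply mul_le_mul_of_nonneg_right _ h3.le
        nlinarith
    _ = 4.158 * k ^ 2 * (7/5 : ℝ) ^ k * ((5/7 : ℝ) ^ k * (7/5) ^ k) := by rw [e2, mul_one]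
    _ = 7 * k * (5/7 : ℝ) ^ k * (297/1000 * ZZ k) := by unfold ZZ; rw [e1]; ring
    _ ≤ _ := mul_le_mul_of_nonneg_left h1 (by positivity)

theorem Good.term_small {i : ℕ} (h1i : 1 ≤ i) (hi : i ≤ k) :
    ((2 * k).choose i : ℝ) * ((298 * beta k).choose (2 * k - i)) *
      ((49/25 : ℝ) ^ (i.choose 2) * RR (beta k) i) ≤
    ((298 * beta k).choose (2 * k) : ℝ) * (2 * (7 * k * (5/7 : ℝ) ^ k)) := by
  set a := 298 * beta k with ha
  set m := 2 * k with hm
  have hma : m < a := hg.lt_a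
  have ham : (0:ℝ) < (a : ℝ) - m := by
    have : (m : ℝ) < a := by exact_mod_cast hma
    linarith
  have hN : (0:ℝ) ≤ (a.choose m : ℝ) := by positivity
  have t1 : ((m.choose i : ℕ) : ℝ) ≤ (m : ℝ) ^ i := by exact_mod_cast Nat.choose_le_pow m i
  have t2 := choose_sub_le a m hma i (by omega)
  have t3 : (49/25 : ℝ) ^ (i.choose 2) ≤ ((7/5 : ℝ) ^ k) ^ i := by
    rw [pow_choose2, ← pow_mul]
    apply pow_le_pow_right₀ (by norm_num)
    rw [mul_comm k i]
    exact Nat.mul_le_mul_left i (by omega)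
  have t4 := hg.RR_small hi
  have hR : 0 ≤ RR (beta k) i := RR_nonneg _ (by positivity) i
  have he := hg.eps
  rw [← ha, ← hm] at he
  have he1 : 7 * k * (5/7 : ℝ) ^ k ≤ 1 := by
    have := hg.c1
    have hk1 : (1:ℝ) ≤ k := by exact_mod_cast hg.k1
    have h5 : (0:ℝ) < (5/7 : ℝ) ^ k := by positivity
    have h6 : 7 * (k : ℝ) * (5/7 : ℝ) ^ k ≤ 7 * (k : ℝ) ^ 2 * (5/7 : ℝ) ^ k := by
      apply mul_le_mul_of_nonneg_right _ h5.le
      nlinarith
    linarith
  calc (m.choose i : ℝ) * (a.choose (m - i)) * ((49/25 : ℝ) ^ (i.choose 2) * RR (beta k) i)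
      ≤ ((m : ℝ) ^ i * (a.choose m * ((m : ℝ) / ((a : ℝ) - m)) ^ i)) *
          (((7/5 : ℝ) ^ k) ^ i * 2) := by
        apply mul_le_mul
        · exact mul_le_mul t1 t2 (by positivity) (by positivity)
        · exact mul_le_mul t3 t4 hR (by positivity)
        · positivity
        · positivity
    _ = a.choose m * (2 * ((m : ℝ) ^ 2 * (7/5 : ℝ) ^ k / ((a : ℝ) - m)) ^ i) := by
        generalize (7/5 : ℝ) ^ k = x
        have hx : ((m : ℝ) ^ 2 * x / ((a : ℝ) - m)) = (m : ℝ) * ((m : ℝ) / ((a : ℝ) - m)) * x := by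
          ring
        rw [hx, mul_pow, mul_pow]
        ring
    _ ≤ a.choose m * (2 * (7 * k * (5/7 : ℝ) ^ k) ^ i) := by
        apply mul_le_mul_of_nonneg_left _ hN
        apply mul_le_mul_of_nonneg_left _ (by norm_num)
        exact pow_le_pow_left₀ (by positivity) he i
    _ ≤ a.choose m * (2 * (7 * k * (5/7 : ℝ) ^ k)) := by
        apply mul_le_mul_of_nonneg_left _ hN
        apply mul_le_mul_of_nonneg_left _ (by norm_num)
        exact pow_le_of_le_one (by positivity) he1 (by omega)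

theorem Good.ma_le : ((2 * k : ℕ) : ℝ) * ((298 * beta k : ℕ) : ℝ) ≤ (7/5 : ℝ) ^ (3 * k) := by
  have h1 := beta_le k
  have hk1 : (1:ℝ) ≤ k := by exact_mod_cast hg.k1
  have e1 : (49/25 : ℝ) ^ k = (7/5) ^ (2 * k) := by rw [pow_mul]; norm_num
  have e2 : (7/5 : ℝ) ^ (3 * k) = (7/5 : ℝ) ^ k * (7/5) ^ (2 * k) := by rw [← pow_add]; congr 1; omega
  have h3 := hg.c2
  have h4 : (0:ℝ) < (7/5 : ℝ) ^ (2 * k) := by positivity
  rw [e2]
  unfold ZZ at h1
  rw [e1] at h1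
  push_cast
  calc 2 * (k : ℝ) * (298 * beta k) ≤ 2 * (k : ℝ) * (298 * (2 * k * (7/5) ^ (2 * k) / 1000)) := by
        apply mul_le_mul_of_nonneg_left _ (by positivity)
        linarith
    _ = 1.192 * k ^ 2 * (7/5) ^ (2 * k) := by ring
    _ ≤ (7/5 : ℝ) ^ k * (7/5) ^ (2 * k) := by
        apply mul_le_mul_of_nonneg_right _ h4.le
        nlinarith

theorem Good.term_large {i : ℕ} (hki : k < i) (hi : i ≤ 2 * k) :
    ((2 * k).choose i : ℝ) * ((298 * beta k).choose (2 * k - i)) *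
      ((49/25 : ℝ) ^ (i.choose 2) * RR (beta k) i) ≤
    (7/5 : ℝ) ^ (2 * k * (2 * k - 1)) * (2 + 490981 * ((102/100 : ℝ) ^ 2) ^ k) := by
  obtain ⟨j, hj⟩ : ∃ j, 2 * k = i + j := ⟨2 * k - i, by omega⟩
  have hj2 : 2 * k - i = j := by omega
  have hsymm : (2 * k).choose i = (2 * k).choose j := by
    rw [hj]; exact Nat.choose_symm_add
  have hR := hg.RR_large hi
  have hR0 : 0 ≤ RR (beta k) i := RR_nonneg _ (by positivity) i
  rw [hj2, hsymm]
  have t1 : (((2 * k).choose j : ℕ) : ℝ) ≤ ((2 * k : ℕ) : ℝ) ^ j := by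
    exact_mod_cast Nat.choose_le_pow (2 * k) j
  have t2 : (((298 * beta k).choose j : ℕ) : ℝ) ≤ ((298 * beta k : ℕ) : ℝ) ^ j := by
    exact_mod_cast Nat.choose_le_pow (298 * beta k) j
  have t3 : (((2 * k).choose j : ℕ) : ℝ) * (((298 * beta k).choose j : ℕ) : ℝ) ≤
      (7/5 : ℝ) ^ (3 * k * j) := by
    calc (((2 * k).choose j : ℕ) : ℝ) * (((298 * beta k).choose j : ℕ) : ℝ)
        ≤ ((2 * k : ℕ) : ℝ) ^ j * ((298 * beta k : ℕ) : ℝ) ^ j :=
          mul_le_mul t1 t2 (by positivity) (by positivity)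
      _ = (((2 * k : ℕ) : ℝ) * ((298 * beta k : ℕ) : ℝ)) ^ j := by rw [mul_pow]
      _ ≤ ((7/5 : ℝ) ^ (3 * k)) ^ j := pow_le_pow_left₀ (by positivity) hg.ma_le j
      _ = _ := by rw [← pow_mul]
  have hexp : 3 * k * j + i * (i - 1) ≤ 2 * k * (2 * k - 1) := by
    obtain ⟨i', rfl⟩ : ∃ i', i = i' + 1 := ⟨i - 1, by omega⟩
    have e1 : 2 * k - 1 = i' + j := by omega
    rw [e1, hj]
    simp only [Nat.add_sub_cancel]
    have hk' : k ≤ i' := by omega
    have hj' : j + 1 ≤ k := by omega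
    have : 3 * k * j ≤ (2 * (i' + 1) + j - 1) * j := by
      apply Nat.mul_le_mul_right
      omega
    have e2 : (i' + 1 + j) * (i' + j) = (2 * (i' + 1) + j - 1) * j + (i' + 1) * i' := by
      have : 2 * (i' + 1) + j - 1 = 2 * i' + 1 + j := by omega
      rw [this]; ring
    rw [e2]
    omega
  calc (((2 * k).choose j : ℕ) : ℝ) * (((298 * beta k).choose j : ℕ) : ℝ) *
        ((49/25 : ℝ) ^ (i.choose 2) * RR (beta k) i)
      ≤ (7/5 : ℝ) ^ (3 * k * j) * ((49/25 : ℝ) ^ (i.choose 2) *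
          (2 + 490981 * ((102/100 : ℝ) ^ 2) ^ k)) := by
        apply mul_le_mul t3 _ (by positivity) (by positivity)
        exact mul_le_mul_of_nonneg_left hR (by positivity)
    _ = (7/5 : ℝ) ^ (3 * k * j + i * (i - 1)) * (2 + 490981 * ((102/100 : ℝ) ^ 2) ^ k) := by
        rw [pow_choose2, pow_add]; ring
    _ ≤ _ := by
        apply mul_le_mul_of_nonneg_right _ (by positivity)
        exact pow_le_pow_right₀ (by norm_num) hexp

/-- the top term compared with the number of `2k`-sets -/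
theorem Good.top : (7/5 : ℝ) ^ (2 * k * (2 * k - 1)) ≤
    ((298 * beta k).choose (2 * k) : ℝ) * (Real.exp 1 * (2 * k) * ((100/113 : ℝ) ^ 2) ^ k) := by
  set a := 298 * beta k with ha
  set m := 2 * k with hm
  have hma : m < a := hg.lt_a
  have hm1 : 1 ≤ m := by have := hg.k1; omega
  have hmR : (1:ℝ) ≤ m := by exact_mod_cast hm1
  have hmk : (m : ℝ) = 2 * k := by rw [hm]; push_cast; ring
  have h1 := choose_lower a m hma.le
  have h2 := fact_upper m hm1
  have h3 := hg.a_sub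
  rw [← ha, ← hm] at h3
  have hZ : ZZ k = m * (7/5 : ℝ) ^ m := by
    unfold ZZ; rw [hmk, hm, pow_mul]; norm_num
  have he := Real.exp_one_gt_d9
  have he0 := Real.exp_pos 1
  have hN : (0:ℝ) ≤ (a.choose m : ℝ) := by positivity
  have key : (297/1000 * (m * (7/5 : ℝ) ^ m)) ^ m ≤
      (Real.exp 1 * m * (m / Real.exp 1) ^ m) * (a.choose m : ℝ) := by
    calc (297/1000 * (m * (7/5 : ℝ) ^ m)) ^ m ≤ ((a : ℝ) - m) ^ m := by
          apply pow_le_pow_left₀ (by positivity)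
          rw [← hZ]; exact h3
      _ ≤ _ := h1
      _ ≤ _ := mul_le_mul_of_nonneg_right h2 hN
  -- rewrite
  have e1 : (297/1000 * (m * (7/5 : ℝ) ^ m)) ^ m =
      (297/1000 * Real.exp 1 * (7/5)) ^ m * (m / Real.exp 1) ^ m * (7/5 : ℝ) ^ (m * (m - 1)) := by
    have : (7/5 : ℝ) ^ (m * (m - 1)) = ((7/5 : ℝ) ^ (m - 1)) ^ m := by
      rw [← pow_mul]; congr 1; ring
    rw [this, ← mul_pow, ← mul_pow]
    congr 1
    have : (7/5 : ℝ) ^ m = (7/5) * (7/5) ^ (m - 1) := by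
      rw [← pow_succ']; congr 1; omega
    rw [this]
    field_simp
  rw [e1] at key
  have hpos : 0 < (m / Real.exp 1) ^ m := by positivity
  have key2 : (297/1000 * Real.exp 1 * (7/5)) ^ m * (7/5 : ℝ) ^ (m * (m - 1)) ≤
      Real.exp 1 * m * (a.choose m : ℝ) := by
    have : (m / Real.exp 1) ^ m * ((297/1000 * Real.exp 1 * (7/5)) ^ m * (7/5 : ℝ) ^ (m * (m - 1)))
        ≤ (m / Real.exp 1) ^ m * (Real.exp 1 * m * (a.choose m : ℝ)) := by
      nlinarith [key]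
    exact le_of_mul_le_mul_left this hpos
  have h5 : (113/100 : ℝ) ^ m ≤ (297/1000 * Real.exp 1 * (7/5)) ^ m := by
    apply pow_le_pow_left₀ (by norm_num)
    nlinarith
  have h6 : (100/113 : ℝ) ^ m * (113/100) ^ m = 1 := by rw [← mul_pow]; norm_num
  have h7 : ((100/113 : ℝ) ^ 2) ^ k = (100/113) ^ m := by rw [← pow_mul]
  rw [h7, ← hmk]
  calc (7/5 : ℝ) ^ (m * (m - 1))
      = (100/113 : ℝ) ^ m * ((113/100) ^ m * (7/5 : ℝ) ^ (m * (m - 1))) := by
        rw [← mul_assoc, h6, one_mul]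
    _ ≤ (100/113 : ℝ) ^ m * ((297/1000 * Real.exp 1 * (7/5)) ^ m * (7/5 : ℝ) ^ (m * (m - 1))) := by
        apply mul_le_mul_of_nonneg_left _ (by positivity)
        exact mul_le_mul_of_nonneg_right h5 (by positivity)
    _ ≤ (100/113 : ℝ) ^ m * (Real.exp 1 * m * (a.choose m : ℝ)) := by
        exact mul_le_mul_of_nonneg_left key2 (by positivity)
    _ = _ := by ring

theorem Good.main : ∑ i ∈ Finset.range (2 * k + 1), ((2 * k).choose i : ℝ) *
      ((298 * beta k).choose (2 * k - i)) * ((49/25 : ℝ) ^ (i.choose 2) * RR (beta k) i) ≤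
    2 * ((298 * beta k).choose (2 * k) : ℝ) := by
  set N : ℝ := ((298 * beta k).choose (2 * k) : ℝ) with hN
  have hN0 : 0 ≤ N := by positivity
  set f : ℕ → ℝ := fun i => ((2 * k).choose i : ℝ) *
      ((298 * beta k).choose (2 * k - i)) * ((49/25 : ℝ) ^ (i.choose 2) * RR (beta k) i) with hf
  have hsplit : ∑ i ∈ Finset.range (2 * k + 1), f i =
      f 0 + ∑ i ∈ Finset.Icc 1 k, f i + ∑ i ∈ Finset.Icc (k + 1) (2 * k), f i := by
    have e1 : Finset.range (2 * k + 1) = {0} ∪ Finset.Icc 1 k ∪ Finset.Icc (k + 1) (2 * k) := by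
      ext i
      simp only [Finset.mem_range, Finset.mem_union, Finset.mem_singleton, Finset.mem_Icc]
      omega
    rw [e1, Finset.sum_union, Finset.sum_union, Finset.sum_singleton]
    · rw [Finset.disjoint_left]
      intro i hi
      simp only [Finset.mem_singleton] at hi
      simp [hi]
    · rw [Finset.disjoint_left]
      intro i hi
      simp only [Finset.mem_union, Finset.mem_singleton, Finset.mem_Icc] at hi ⊢
      omega
  rw [hsplit]
  have s0 : f 0 ≤ 3/2 * N := by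
    simp only [hf, Nat.choose_zero_right, Nat.cast_one, one_mul, Nat.sub_zero, Nat.choose_zero_succ]
    have h1 := hg.RR_zero
    simp only [pow_zero, one_mul]
    rw [← hN]
    nlinarith
  have s1 : ∑ i ∈ Finset.Icc 1 k, f i ≤ 1/4 * N := by
    calc ∑ i ∈ Finset.Icc 1 k, f i ≤ ∑ i ∈ Finset.Icc 1 k, N * (2 * (7 * k * (5/7 : ℝ) ^ k)) := by
          apply Finset.sum_le_sum
          intro i hi
          rw [Finset.mem_Icc] at hi
          exact hg.term_small hi.1 hi.2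
      _ = N * (2 * (7 * k ^ 2 * (5/7 : ℝ) ^ k)) := by
          rw [Finset.sum_const, Nat.card_Icc, Nat.add_sub_cancel, nsmul_eq_mul]; ring
      _ ≤ N * (2 * (1/8)) := by
          apply mul_le_mul_of_nonneg_left _ hN0
          linarith [hg.c1]
      _ = _ := by ring
  have s2 : ∑ i ∈ Finset.Icc (k + 1) (2 * k), f i ≤ 1/4 * N := by
    have he := Real.exp_one_lt_d9
    have he0 := Real.exp_pos 1
    calc ∑ i ∈ Finset.Icc (k + 1) (2 * k), f i ≤ ∑ i ∈ Finset.Icc (k + 1) (2 * k),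
            (N * (Real.exp 1 * (2 * k) * ((100/113 : ℝ) ^ 2) ^ k)) *
              (2 + 490981 * ((102/100 : ℝ) ^ 2) ^ k) := by
          apply Finset.sum_le_sum
          intro i hi
          rw [Finset.mem_Icc] at hi
          refine (hg.term_large (by omega) hi.2).trans ?_
          apply mul_le_mul_of_nonneg_right hg.top (by positivity)
      _ = k * ((N * (Real.exp 1 * (2 * k) * ((100/113 : ℝ) ^ 2) ^ k)) *
              (2 + 490981 * ((102/100 : ℝ) ^ 2) ^ k)) := by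
          rw [Finset.sum_const, Nat.card_Icc, nsmul_eq_mul]
          congr 2
          omega
      _ = N * (k ^ 2 * ((4 * Real.exp 1) * ((100/113 : ℝ) ^ 2) ^ k +
            (981962 * Real.exp 1) * (((100/113 : ℝ) ^ 2) ^ k * ((102/100 : ℝ) ^ 2) ^ k))) := by ring
      _ = N * (k ^ 2 * ((4 * Real.exp 1) * ((100/113 : ℝ) ^ 2) ^ k +
            (981962 * Real.exp 1) * ((102/113 : ℝ) ^ 2) ^ k)) := by
          rw [← mul_pow]; norm_num
      _ ≤ N * (k ^ 2 * (24 * ((100/113 : ℝ) ^ 2) ^ k + 24000000 * ((102/113 : ℝ) ^ 2) ^ k)) := by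
          apply mul_le_mul_of_nonneg_left _ hN0
          apply mul_le_mul_of_nonneg_left _ (by positivity)
          apply add_le_add
          · exact mul_le_mul_of_nonneg_right (by linarith) (by positivity)
          · exact mul_le_mul_of_nonneg_right (by linarith) (by positivity)
      _ ≤ N * (1/4) := mul_le_mul_of_nonneg_left hg.c6 hN0
      _ = _ := by ring
  linarith

end

end Pool.Agent.U523.BC
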