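import Pool.Agent.U523.BC.Prob

set_option autoImplicit false
open scoped Classical

namespace Pool.Agent.U523.BC

variable {n : ℕ}

/-- the pairs inside a set -/
noncomputable def prs (I : Finset (Fin n)) : Finset (Sym2 (Fin n)) :=
  I.offDiag.image Sym2.mk.uncurry

theorem mem_prs (I : Finset (Fin n)) (x y : Fin n) : s(x, y) ∈ prs I ↔ x ∈ I ∧ y ∈ I ∧ x ≠ y := by
  unfold prs
  rw [Finset.mem_image]
  constructor
  · rintro ⟨⟨a, b⟩, hab, h⟩
    rw [Finset.mem_offDiag] at hab
    simp only [Function.uncurry] at h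
    rw [Sym2.eq_iff] at h
    rcases h with ⟨rfl, rfl⟩ | ⟨rfl, rfl⟩
    · exact hab
    · exact ⟨hab.2.1, hab.1, hab.2.2.symm⟩
  · rintro ⟨hx, hy, hxy⟩
    exact ⟨(x, y), Finset.mem_offDiag.2 ⟨hx, hy, hxy⟩, rfl⟩

theorem card_prs (I : Finset (Fin n)) : (prs I).card = I.card.choose 2 := Sym2.card_image_offDiag I

theorem prs_inter (I I' : Finset (Fin n)) : prs I ∩ prs I' = prs (I ∩ I') := by
  ext e
  induction e using Sym2.ind with
  | _ x y =>
    rw [Finset.mem_inter, mem_prs, mem_prs, mem_prs, Finset.mem_inter, Finset.mem_inter]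
    tauto

theorem card_prs_union (I I' : Finset (Fin n)) {m i : ℕ} (hI : I.card = m) (hI' : I'.card = m)
    (hi : (I ∩ I').card = i) :
    (prs I ∪ prs I').card + i.choose 2 = 2 * m.choose 2 := by
  have := Finset.card_union_add_card_inter (prs I) (prs I')
  rw [prs_inter, card_prs, card_prs, card_prs, hI, hI', hi] at this
  omega

/-- indicator that `I` is independent -/
noncomputable def JJ (I : Finset (Fin n)) (ω : Sym2 (Fin n) → Bool) : ℝ :=
  ∏ e ∈ prs I, (if ω e then 0 else 1)

/-- indicator that `u`, `v` are not adjacent -/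
noncomputable def nad (u v : Fin n) (ω : Sym2 (Fin n) → Bool) : ℝ := if ω s(u, v) then 0 else 1

/-- indicator that `w` does not distinguish `u` and `v` -/
noncomputable def tw (u v w : Fin n) (ω : Sym2 (Fin n) → Bool) : ℝ :=
  if ω s(u, w) = ω s(v, w) then 1 else 0

/-- indicator of the whole structure -/
noncomputable def TT (I : Finset (Fin n)) (u v : Fin n) (ω : Sym2 (Fin n) → Bool) : ℝ :=
  JJ I ω * (nad u v ω * ∏ w ∈ I, tw u v w ω)

theorem JJ_nonneg (I : Finset (Fin n)) (ω : Sym2 (Fin n) → Bool) : 0 ≤ JJ I ω :=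
  Finset.prod_nonneg fun e _ => by split_ifs <;> norm_num

theorem nad_nonneg (u v : Fin n) (ω : Sym2 (Fin n) → Bool) : 0 ≤ nad u v ω := by
  unfold nad; split_ifs <;> norm_num

theorem tw_nonneg (u v w : Fin n) (ω : Sym2 (Fin n) → Bool) : 0 ≤ tw u v w ω := by
  unfold tw; split_ifs <;> norm_num

theorem TT_nonneg (I : Finset (Fin n)) (u v : Fin n) (ω : Sym2 (Fin n) → Bool) : 0 ≤ TT I u v ω :=
  mul_nonneg (JJ_nonneg _ _) (mul_nonneg (nad_nonneg _ _ _)
    (Finset.prod_nonneg fun _ _ => tw_nonneg _ _ _ _))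

theorem EE_allzero (p : ℝ) (D : Finset (Sym2 (Fin n))) :
    EE p (fun ω => ∏ e ∈ D, (if ω e then (0:ℝ) else 1)) = (1 - p) ^ D.card := by
  rw [EE_prod p D (fun _ b => if b then (0:ℝ) else 1)]
  simp

theorem JJ_mul (I I' : Finset (Fin n)) (ω : Sym2 (Fin n) → Bool) :
    JJ I ω * JJ I' ω = ∏ e ∈ prs I ∪ prs I', (if ω e then (0:ℝ) else 1) := by
  unfold JJ
  by_cases h : ∃ e ∈ prs I ∪ prs I', ω e = true
  · obtain ⟨e, he, hω⟩ := h
    rw [Finset.prod_eq_zero he (by simp [hω])]
    rw [Finset.mem_union] at he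
    rcases he with he | he
    · rw [Finset.prod_eq_zero he (by simp [hω]), zero_mul]
    · rw [Finset.prod_eq_zero (s := prs I') he (by simp [hω]), mul_zero]
  · push Not at h
    have h1 : ∀ D ⊆ prs I ∪ prs I', ∏ e ∈ D, (if ω e then (0:ℝ) else 1) = 1 := by
      intro D hD
      apply Finset.prod_eq_one
      intro e he
      have := h e (hD he)
      simp [this]
    rw [h1 _ Finset.subset_union_left, h1 _ Finset.subset_union_right, h1 _ (Finset.Subset.refl _)]
    norm_num

theorem EE_JJ (p : ℝ) (I : Finset (Fin n)) : EE p (JJ I) = (1 - p) ^ (I.card.choose 2) := by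
  have := EE_allzero p (prs I)
  rw [card_prs] at this
  exact this

theorem EE_JJ_mul (p : ℝ) (I I' : Finset (Fin n)) :
    EE p (fun ω => JJ I ω * JJ I' ω) = (1 - p) ^ (prs I ∪ prs I').card := by
  simp only [JJ_mul]
  exact EE_allzero p _

/-- expectation of the indicator that all coordinates in `D` are equal, given a base point of `D` -/
theorem EE_alleq (p : ℝ) (D : Finset (Sym2 (Fin n))) :
    EE p (fun ω => ∏ e ∈ D, (if ω e = true then (1:ℝ) else 0) +
      ∏ e ∈ D, (if ω e = false then (1:ℝ) else 0)) = p ^ D.card + (1 - p) ^ D.card := by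
  rw [EE_add, EE_prod p D (fun _ b => if b = true then (1:ℝ) else 0),
    EE_prod p D (fun _ b => if b = false then (1:ℝ) else 0)]
  simp

theorem edge_ne {x y w : Fin n} (h : x ≠ y) : s(x, w) ≠ s(y, w) := by
  intro he
  rw [Sym2.eq_iff] at he
  rcases he with he | he
  · exact h he.1
  · exact h (he.1.trans he.2)

theorem EE_tw (p : ℝ) {u v w : Fin n} (huv : u ≠ v) :
    EE p (tw u v w) = p ^ 2 + (1 - p) ^ 2 := by
  have hne := edge_ne (w := w) huv
  have := EE_alleq p ({s(u, w), s(v, w)} : Finset (Sym2 (Fin n)))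
  rw [Finset.card_pair hne] at this
  rw [← this]
  congr 1
  funext ω
  rw [Finset.prod_pair hne, Finset.prod_pair hne]
  unfold tw
  cases h1 : ω s(u, w) <;> cases h2 : ω s(v, w) <;> simp

theorem EE_tw_mul_same (p : ℝ) {u v w : Fin n} (huv : u ≠ v) :
    EE p (fun ω => tw u v w ω * tw u v w ω) = p ^ 2 + (1 - p) ^ 2 := by
  rw [← EE_tw p (w := w) huv]
  congr 1
  funext ω
  unfold tw
  split_ifs <;> simp

/-- three different vertices -/
theorem EE_three (p : ℝ) {x y z w : Fin n} (hxy : x ≠ y) (hxz : x ≠ z) (hyz : y ≠ z)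
    (f : (Sym2 (Fin n) → Bool) → ℝ)
    (hf : ∀ ω, f ω = if (ω s(x, w) = ω s(y, w) ∧ ω s(x, w) = ω s(z, w)) then 1 else 0) :
    EE p f = p ^ 3 + (1 - p) ^ 3 := by
  have h1 := edge_ne (w := w) hxy
  have h2 := edge_ne (w := w) hxz
  have h3 := edge_ne (w := w) hyz
  have := EE_alleq p ({s(x, w), s(y, w), s(z, w)} : Finset (Sym2 (Fin n)))
  have hc : ({s(x, w), s(y, w), s(z, w)} : Finset (Sym2 (Fin n))).card = 3 :=
    Finset.card_eq_three.2 ⟨_, _, _, h1, h2, h3, rfl⟩
  rw [hc] at this
  rw [← this]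
  congr 1
  funext ω
  rw [hf]
  have hp : ∀ g : Sym2 (Fin n) → ℝ, ∏ e ∈ ({s(x, w), s(y, w), s(z, w)} : Finset (Sym2 (Fin n))), g e
      = g s(x, w) * (g s(y, w) * g s(z, w)) := by
    intro g
    rw [Finset.prod_insert, Finset.prod_pair h3]
    simp only [Finset.mem_insert, Finset.mem_singleton, not_or]
    exact ⟨h1, h2⟩
  rw [hp, hp]
  cases g1 : ω s(x, w) <;> cases g2 : ω s(y, w) <;> cases g3 : ω s(z, w) <;> simp

theorem dependsOn_tw (u v w : Fin n) :
    DependsOn (tw u v w) ({s(u, w), s(v, w)} : Set (Sym2 (Fin n))) := by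
  intro x y h
  unfold tw
  rw [h s(u, w) (by simp), h s(v, w) (by simp)]

theorem EE_tw_mul_diff (p : ℝ) {u v u' v' w : Fin n} (huv : u ≠ v) (huv' : u' ≠ v')
    (h1 : u ≠ u') (h2 : v ≠ v') (h3 : u ≠ v') (h4 : v ≠ u') :
    EE p (fun ω => tw u v w ω * tw u' v' w ω) = (p ^ 2 + (1 - p) ^ 2) ^ 2 := by
  have hdis : Disjoint ({s(u, w), s(v, w)} : Set (Sym2 (Fin n))) {s(u', w), s(v', w)} := ?_
  · rw [EE_mul (dependsOn_tw u v w) (dependsOn_tw u' v' w) hdis, EE_tw p huv, EE_tw p huv']
    ring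
  rw [Set.disjoint_left]
  intro e he he'
  simp only [Set.mem_insert_iff, Set.mem_singleton_iff] at he he'
  rcases he with rfl | rfl <;> rcases he' with he' | he'
  · exact edge_ne h1 he'
  · exact edge_ne h3 he'
  · exact edge_ne h4 he'
  · exact edge_ne h2 he'

/-- the two-structure local factor at `w` -/
noncomputable def hh (I I' : Finset (Fin n)) (u v u' v' w : Fin n) (ω : Sym2 (Fin n) → Bool) : ℝ :=
  (if w ∈ I then tw u v w ω else 1) * (if w ∈ I' then tw u' v' w ω else 1)

theorem dependsOn_hh (I I' : Finset (Fin n)) (u v u' v' w : Fin n) :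
    DependsOn (hh I I' u v u' v' w)
      ({s(u, w), s(v, w), s(u', w), s(v', w)} : Set (Sym2 (Fin n))) := by
  intro x y h
  unfold hh tw
  rw [h s(u, w) (by simp), h s(v, w) (by simp), h s(u', w) (by simp), h s(v', w) (by simp)]

/-- the local value when `w` is in both sets -/
noncomputable def loc (p : ℝ) (u v u' v' : Fin n) : ℝ :=
  if u = u' then (if v = v' then p ^ 2 + (1 - p) ^ 2 else p ^ 3 + (1 - p) ^ 3)
  else (if v = v' then p ^ 3 + (1 - p) ^ 3 else (p ^ 2 + (1 - p) ^ 2) ^ 2)

theorem EE_tw_mul (p : ℝ) {u v u' v' w : Fin n} (huv : u ≠ v) (huv' : u' ≠ v')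
    (h3 : u ≠ v') (h4 : v ≠ u') :
    EE p (fun ω => tw u v w ω * tw u' v' w ω) = loc p u v u' v' := by
  unfold loc
  by_cases h1 : u = u'
  · subst h1
    by_cases h2 : v = v'
    · subst h2
      simp only [if_true]
      exact EE_tw_mul_same p huv
    · simp only [if_true, h2, if_false]
      apply EE_three p huv huv' h2 (w := w)
      intro ω
      unfold tw
      cases g1 : ω s(u, w) <;> cases g2 : ω s(v, w) <;> cases g3 : ω s(v', w) <;> simp
  · by_cases h2 : v = v'
    · subst h2
      simp only [h1, if_true, if_false]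
      apply EE_three p huv.symm huv'.symm h1 (w := w)
      intro ω
      unfold tw
      cases g1 : ω s(u, w) <;> cases g2 : ω s(v, w) <;> cases g3 : ω s(u', w) <;> simp
    · simp only [h1, h2, if_false]
      exact EE_tw_mul_diff p huv huv' h1 h2 h3 h4

theorem EE_hh (p : ℝ) (I I' : Finset (Fin n)) {u v u' v' : Fin n} (w : Fin n) (huv : u ≠ v)
    (huv' : u' ≠ v') (h3 : u ≠ v') (h4 : v ≠ u') :
    EE p (hh I I' u v u' v' w) =
      if w ∈ I then (if w ∈ I' then loc p u v u' v' else p ^ 2 + (1 - p) ^ 2)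
      else (if w ∈ I' then p ^ 2 + (1 - p) ^ 2 else 1) := by
  unfold hh
  by_cases h1 : w ∈ I <;> by_cases h2 : w ∈ I'
  · simp only [h1, h2, if_true]
    exact EE_tw_mul p huv huv' h3 h4
  · simp only [h1, h2, if_true, if_false, mul_one]
    exact EE_tw p huv
  · simp only [h1, h2, if_true, if_false, one_mul]
    exact EE_tw p huv'
  · simp only [h1, h2, if_false, mul_one]
    exact EE_one p

theorem prod_hh (A I I' : Finset (Fin n)) (hI : I ⊆ A) (hI' : I' ⊆ A) (u v u' v' : Fin n)
    (ω : Sym2 (Fin n) → Bool) :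
    ∏ w ∈ A, hh I I' u v u' v' w ω = (∏ w ∈ I, tw u v w ω) * ∏ w ∈ I', tw u' v' w ω := by
  unfold hh
  rw [Finset.prod_mul_distrib, Finset.prod_ite_mem, Finset.prod_ite_mem,
    Finset.inter_eq_right.2 hI, Finset.inter_eq_right.2 hI']

theorem prod_EE_hh (p : ℝ) (A I I' : Finset (Fin n)) (hI : I ⊆ A) (hI' : I' ⊆ A)
    {m i : ℕ} (hIm : I.card = m) (hIm' : I'.card = m) (hi : (I ∩ I').card = i) (L : ℝ) :
    ∏ w ∈ A, (if w ∈ I then (if w ∈ I' then L else p ^ 2 + (1 - p) ^ 2)
      else (if w ∈ I' then p ^ 2 + (1 - p) ^ 2 else 1)) =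
      (p ^ 2 + (1 - p) ^ 2) ^ (2 * (m - i)) * L ^ i := by
  set s := p ^ 2 + (1 - p) ^ 2 with hs
  have h1 : ∀ w ∈ A, (if w ∈ I then (if w ∈ I' then L else s)
      else (if w ∈ I' then s else 1)) =
      (if w ∈ I \ I' then s else 1) * ((if w ∈ I' \ I then s else 1) *
        (if w ∈ I ∩ I' then L else 1)) := by
    intro w _
    by_cases a : w ∈ I <;> by_cases b : w ∈ I' <;> simp [a, b]
  rw [Finset.prod_congr rfl h1, Finset.prod_mul_distrib, Finset.prod_mul_distrib,
    Finset.prod_ite_mem, Finset.prod_ite_mem, Finset.prod_ite_mem]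
  simp only [Finset.prod_const]
  have e1 : (A ∩ (I \ I')).card = m - i := by
    rw [Finset.inter_eq_right.2 (Finset.sdiff_subset.trans hI)]
    have := Finset.card_sdiff_add_card_inter I I'
    omega
  have e2 : (A ∩ (I' \ I)).card = m - i := by
    rw [Finset.inter_eq_right.2 (Finset.sdiff_subset.trans hI')]
    have := Finset.card_sdiff_add_card_inter I' I
    rw [Finset.inter_comm I' I] at this
    omega
  have e3 : (A ∩ (I ∩ I')).card = i := by
    rw [Finset.inter_eq_right.2 (Finset.inter_subset_left.trans hI), hi]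
  rw [e1, e2, e3, ← mul_assoc, ← pow_add]
  congr 2
  ring

/-- the non-adjacency factor -/
noncomputable def nn (p : ℝ) (u v u' v' : Fin n) : ℝ :=
  if u = u' ∧ v = v' then 1 - p else (1 - p) ^ 2

theorem EE_nad (p : ℝ) {u v u' v' : Fin n} (h3 : u ≠ v') :
    EE p (fun ω => nad u v ω * nad u' v' ω) = nn p u v u' v' := by
  unfold nn
  by_cases h : u = u' ∧ v = v'
  · obtain ⟨rfl, rfl⟩ := h
    simp only [and_self, if_true]
    have := EE_allzero p ({s(u, v)} : Finset (Sym2 (Fin n)))
    rw [Finset.card_singleton, pow_one] at this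
    rw [← this]
    congr 1
    funext ω
    unfold nad
    rw [Finset.prod_singleton]
    split_ifs <;> simp
  · simp only [h, if_false]
    have hne : s(u, v) ≠ s(u', v') := by
      intro he
      rw [Sym2.eq_iff] at he
      rcases he with he | he
      · exact h he
      · exact h3 he.1
    have := EE_allzero p ({s(u, v), s(u', v')} : Finset (Sym2 (Fin n)))
    rw [Finset.card_pair hne] at this
    rw [← this]
    congr 1
    funext ω
    unfold nad
    rw [Finset.prod_pair hne]

theorem EE_TT_mul (p : ℝ) (A I I' : Finset (Fin n)) (hI : I ⊆ A) (hI' : I' ⊆ A)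
    {m i : ℕ} (hIm : I.card = m) (hIm' : I'.card = m) (hi : (I ∩ I').card = i)
    {u v u' v' : Fin n} (hu : u ∉ A) (hv : v ∉ A) (hu' : u' ∉ A) (hv' : v' ∉ A)
    (huv : u ≠ v) (huv' : u' ≠ v') (h3 : u ≠ v') (h4 : v ≠ u') :
    EE p (fun ω => TT I u v ω * TT I' u' v' ω) =
      (1 - p) ^ (prs I ∪ prs I').card * (nn p u v u' v' *
        ((p ^ 2 + (1 - p) ^ 2) ^ (2 * (m - i)) * (loc p u v u' v') ^ i)) := by
  have hrew : (fun ω => TT I u v ω * TT I' u' v' ω) = (fun ω => (JJ I ω * JJ I' ω) *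
      ((nad u v ω * nad u' v' ω) * ∏ w ∈ A, hh I I' u v u' v' w ω)) := by
    funext ω
    rw [prod_hh A I I' hI hI']
    unfold TT
    ring
  rw [hrew]
  -- dependence sets
  have d1 : DependsOn (fun ω : Sym2 (Fin n) → Bool => JJ I ω * JJ I' ω)
      (prs I ∪ prs I' : Set (Sym2 (Fin n))) := by
    intro x y h
    simp only [JJ_mul]
    apply Finset.prod_congr rfl
    intro e he
    rw [h e (by simpa using he)]
  have d2 : DependsOn (fun ω : Sym2 (Fin n) → Bool => nad u v ω * nad u' v' ω)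
      ({s(u, v), s(u', v')} : Set (Sym2 (Fin n))) := by
    intro x y h
    simp only [nad]
    rw [h s(u, v) (by simp), h s(u', v') (by simp)]
  have d3 : DependsOn (fun ω : Sym2 (Fin n) → Bool => ∏ w ∈ A, hh I I' u v u' v' w ω)
      (⋃ w ∈ A, ({s(u, w), s(v, w), s(u', w), s(v', w)} : Set (Sym2 (Fin n)))) :=
    dependsOn_prod A _ _ fun w _ => dependsOn_hh I I' u v u' v' w
  have d23 : DependsOn (fun ω : Sym2 (Fin n) → Bool => (nad u v ω * nad u' v' ω) *
      ∏ w ∈ A, hh I I' u v u' v' w ω) ({s(u, v), s(u', v')} ∪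
      (⋃ w ∈ A, ({s(u, w), s(v, w), s(u', w), s(v', w)} : Set (Sym2 (Fin n))))) := by
    intro x y h
    have a1 := d2 (x := x) (y := y) (fun i hi => h i (Or.inl hi))
    have a2 := d3 (x := x) (y := y) (fun i hi => h i (Or.inr hi))
    simp only at a1 a2 ⊢
    rw [a1, a2]
  have disj1 : Disjoint (prs I ∪ prs I' : Set (Sym2 (Fin n))) ({s(u, v), s(u', v')} ∪
      (⋃ w ∈ A, ({s(u, w), s(v, w), s(u', w), s(v', w)} : Set (Sym2 (Fin n))))) := by
    rw [Set.disjoint_left]
    intro e he he'
    have hA : ∀ x ∈ e, x ∈ A := by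
      intro x hx
      induction e using Sym2.ind with
      | _ a b =>
        rcases he with he | he
        · rw [Finset.mem_coe, mem_prs] at he
          rw [Sym2.mem_iff] at hx
          rcases hx with rfl | rfl
          · exact hI he.1
          · exact hI he.2.1
        · rw [Finset.mem_coe, mem_prs] at he
          rw [Sym2.mem_iff] at hx
          rcases hx with rfl | rfl
          · exact hI' he.1
          · exact hI' he.2.1
    rcases he' with he' | he'
    · simp only [Set.mem_insert_iff, Set.mem_singleton_iff] at he'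
      rcases he' with rfl | rfl
      · exact hu (hA u (by simp))
      · exact hu' (hA u' (by simp))
    · simp only [Set.mem_iUnion, Set.mem_insert_iff, Set.mem_singleton_iff] at he'
      obtain ⟨w, _, he'⟩ := he'
      rcases he' with rfl | rfl | rfl | rfl
      · exact hu (hA u (by simp))
      · exact hv (hA v (by simp))
      · exact hu' (hA u' (by simp))
      · exact hv' (hA v' (by simp))
  have disj2 : Disjoint ({s(u, v), s(u', v')} : Set (Sym2 (Fin n)))
      (⋃ w ∈ A, ({s(u, w), s(v, w), s(u', w), s(v', w)} : Set (Sym2 (Fin n)))) := by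
    rw [Set.disjoint_left]
    intro e he he'
    simp only [Set.mem_iUnion] at he'
    obtain ⟨w, hw, he'⟩ := he'
    have hwe : w ∈ e := by
      simp only [Set.mem_insert_iff, Set.mem_singleton_iff] at he'
      rcases he' with rfl | rfl | rfl | rfl <;> simp
    simp only [Set.mem_insert_iff, Set.mem_singleton_iff] at he
    rcases he with rfl | rfl
    · rw [Sym2.mem_iff] at hwe
      rcases hwe with rfl | rfl
      · exact hu hw
      · exact hv hw
    · rw [Sym2.mem_iff] at hwe
      rcases hwe with rfl | rfl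
      · exact hu' hw
      · exact hv' hw
  rw [EE_mul d1 d23 disj1, EE_JJ_mul, EE_mul d2 d3 disj2, EE_nad p h3]
  congr 2
  rw [EE_prod_of_dependsOn A _ _ (fun w _ => dependsOn_hh I I' u v u' v' w)]
  · rw [← prod_EE_hh p A I I' hI hI' hIm hIm' hi]
    apply Finset.prod_congr rfl
    intro w _
    exact EE_hh p I I' w huv huv' h3 h4
  · intro k hk l hl hkl
    rw [Set.disjoint_left]
    intro e he he'
    have hke : k ∈ e := by
      simp only [Set.mem_insert_iff, Set.mem_singleton_iff] at he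
      rcases he with rfl | rfl | rfl | rfl <;> simp
    simp only [Set.mem_insert_iff, Set.mem_singleton_iff] at he'
    rcases he' with rfl | rfl | rfl | rfl
    · rw [Sym2.mem_iff] at hke
      rcases hke with rfl | h
      · exact hu hk
      · exact hkl h
    · rw [Sym2.mem_iff] at hke
      rcases hke with rfl | h
      · exact hv hk
      · exact hkl h
    · rw [Sym2.mem_iff] at hke
      rcases hke with rfl | h
      · exact hu' hk
      · exact hkl h
    · rw [Sym2.mem_iff] at hke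
      rcases hke with rfl | h
      · exact hv' hk
      · exact hkl h

theorem EE_TT (p : ℝ) (A I : Finset (Fin n)) (hI : I ⊆ A) {m : ℕ} (hIm : I.card = m)
    {u v : Fin n} (hu : u ∉ A) (hv : v ∉ A) (huv : u ≠ v) :
    EE p (TT I u v) = (1 - p) ^ (m.choose 2) * ((1 - p) * (p ^ 2 + (1 - p) ^ 2) ^ m) := by
  have h := EE_TT_mul p A I I hI hI hIm hIm (i := m) (by rw [Finset.inter_self, hIm]) hu hv hu hv
    huv huv huv huv.symm
  have hsq : (fun ω => TT I u v ω * TT I u v ω) = TT I u v := by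
    funext ω
    have h1 : JJ I ω * JJ I ω = JJ I ω := by
      rw [JJ_mul, Finset.union_self]; rfl
    have h2 : nad u v ω * nad u v ω = nad u v ω := by unfold nad; split_ifs <;> simp
    have h3 : (∏ w ∈ I, tw u v w ω) * (∏ w ∈ I, tw u v w ω) = ∏ w ∈ I, tw u v w ω := by
      rw [← Finset.prod_mul_distrib]
      apply Finset.prod_congr rfl
      intro w _
      unfold tw; split_ifs <;> simp
    unfold TT
    calc JJ I ω * (nad u v ω * ∏ w ∈ I, tw u v w ω) * (JJ I ω * (nad u v ω * ∏ w ∈ I, tw u v w ω))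
        = (JJ I ω * JJ I ω) * ((nad u v ω * nad u v ω) *
          ((∏ w ∈ I, tw u v w ω) * ∏ w ∈ I, tw u v w ω)) := by ring
      _ = _ := by rw [h1, h2, h3]
  rw [hsq] at h
  rw [h]
  simp [nn, loc, card_prs, hIm]

end Pool.Agent.U523.BC
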