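import Mathlib

set_option autoImplicit false
open scoped Classical

namespace Pool.Agent.U523.BC

section general
variable {E : Type} [Fintype E]

/-- weight of one coordinate -/
noncomputable def wt (p : ℝ) (b : Bool) : ℝ := if b then p else 1 - p

@[simp] theorem wt_true (p : ℝ) : wt p true = p := by simp [wt]
@[simp] theorem wt_false (p : ℝ) : wt p false = 1 - p := by simp [wt]

/-- expectation with respect to independent `Bernoulli(p)` coordinates -/
noncomputable def EE (p : ℝ) (f : (E → Bool) → ℝ) : ℝ :=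
  ∑ ω : E → Bool, (∏ e, wt p (ω e)) * f ω

theorem wt_nonneg {p : ℝ} (h0 : 0 ≤ p) (h1 : p ≤ 1) (b : Bool) : 0 ≤ wt p b := by
  cases b <;> simp [wt] <;> linarith

theorem mu_nonneg {p : ℝ} (h0 : 0 ≤ p) (h1 : p ≤ 1) (ω : E → Bool) : 0 ≤ ∏ e, wt p (ω e) :=
  Finset.prod_nonneg fun e _ => wt_nonneg h0 h1 (ω e)

theorem EE_mono {p : ℝ} (h0 : 0 ≤ p) (h1 : p ≤ 1) {f g : (E → Bool) → ℝ} (h : ∀ ω, f ω ≤ g ω) :
    EE p f ≤ EE p g :=
  Finset.sum_le_sum fun ω _ => mul_le_mul_of_nonneg_left (h ω) (mu_nonneg h0 h1 ω)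

theorem EE_nonneg {p : ℝ} (h0 : 0 ≤ p) (h1 : p ≤ 1) {f : (E → Bool) → ℝ} (h : ∀ ω, 0 ≤ f ω) :
    0 ≤ EE p f :=
  Finset.sum_nonneg fun ω _ => mul_nonneg (mu_nonneg h0 h1 ω) (h ω)

theorem EE_add (p : ℝ) (f g : (E → Bool) → ℝ) : EE p (fun ω => f ω + g ω) = EE p f + EE p g := by
  simp only [EE, mul_add, Finset.sum_add_distrib]

theorem EE_sub (p : ℝ) (f g : (E → Bool) → ℝ) : EE p (fun ω => f ω - g ω) = EE p f - EE p g := by
  simp only [EE, mul_sub, Finset.sum_sub_distrib]

theorem EE_smul (p : ℝ) (c : ℝ) (f : (E → Bool) → ℝ) : EE p (fun ω => c * f ω) = c * EE p f := by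
  simp only [EE, Finset.mul_sum]
  exact Finset.sum_congr rfl fun ω _ => by ring

theorem EE_sum {κ : Type} (p : ℝ) (K : Finset κ) (f : κ → (E → Bool) → ℝ) :
    EE p (fun ω => ∑ k ∈ K, f k ω) = ∑ k ∈ K, EE p (f k) := by
  simp only [EE, Finset.mul_sum]
  rw [Finset.sum_comm]

theorem EE_prod (p : ℝ) (D : Finset E) (z : E → Bool → ℝ) :
    EE p (fun ω => ∏ e ∈ D, z e (ω e)) = ∏ e ∈ D, (p * z e true + (1 - p) * z e false) := by
  have h1 : ∀ ω : E → Bool, (∏ e, wt p (ω e)) * ∏ e ∈ D, z e (ω e) =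
      ∏ e, (wt p (ω e) * if e ∈ D then z e (ω e) else 1) := by
    intro ω
    rw [Finset.prod_mul_distrib, Finset.prod_ite_mem]
    simp
  simp only [EE, h1]
  have h2 := Finset.prod_univ_sum (fun _ : E => (Finset.univ : Finset Bool))
    (fun e b => wt p b * if e ∈ D then z e b else 1)
  rw [Fintype.piFinset_univ] at h2
  rw [← h2]
  simp only [Fintype.sum_bool, wt_true, wt_false]
  rw [← Finset.prod_subset (Finset.subset_univ D)]
  · apply Finset.prod_congr rfl
    intro e he
    simp [he]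
  · intro e _ he
    simp [he]

@[simp] theorem EE_one (p : ℝ) : EE (E := E) p (fun _ => 1) = 1 := by
  have := EE_prod (E := E) p ∅ (fun _ _ => 1)
  simpa using this

theorem EE_const (p : ℝ) (c : ℝ) : EE (E := E) p (fun _ => c) = c := by
  have := EE_smul (E := E) p c (fun _ => 1)
  simpa using this

theorem EE_mul {p : ℝ} {f g : (E → Bool) → ℝ} {D D' : Set E}
    (hf : DependsOn f D) (hg : DependsOn g D') (hDD : Disjoint D D') :
    EE p (fun ω => f ω * g ω) = EE p f * EE p g := by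
  -- split the coordinates
  let e := Equiv.piEquivPiSubtypeProd (fun x => x ∈ D) (fun _ : E => Bool)
  let f' : ({x // x ∈ D} → Bool) → ℝ := fun a => f (e.symm (a, fun _ => false))
  let g' : ({x // ¬ x ∈ D} → Bool) → ℝ := fun b => g (e.symm (fun _ => false, b))
  have hf' : ∀ a b, f (e.symm (a, b)) = f' a := by
    intro a b
    apply hf
    intro x hx
    simp [e, Equiv.piEquivPiSubtypeProd, hx]
  have hg' : ∀ a b, g (e.symm (a, b)) = g' b := by
    intro a b
    apply hg
    intro x hx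
    have : x ∉ D := fun h => (Set.disjoint_left.1 hDD h hx)
    simp [e, Equiv.piEquivPiSubtypeProd, this]
  have hmu : ∀ a b, ∏ x, wt p (e.symm (a, b) x) = (∏ x, wt p (a x)) * ∏ x, wt p (b x) := by
    intro a b
    rw [← Fintype.prod_subtype_mul_prod_subtype (fun x => x ∈ D)]
    congr 1
    · apply Finset.prod_congr rfl
      intro x _
      simp [e, Equiv.piEquivPiSubtypeProd, x.2]
    · apply Finset.prod_congr rfl
      intro x _
      simp [e, Equiv.piEquivPiSubtypeProd, x.2]
  have key : ∀ F : (E → Bool) → ℝ, EE p F =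
      ∑ a, ∑ b, ((∏ x, wt p (a x)) * ∏ x, wt p (b x)) * F (e.symm (a, b)) := by
    intro F
    unfold EE
    rw [← e.symm.sum_comp, Fintype.sum_prod_type]
    simp only [hmu]
  have one1 : ∑ a : ({x // x ∈ D} → Bool), ∏ x, wt p (a x) = 1 := by
    have := EE_one (E := {x // x ∈ D}) p
    simp only [EE, mul_one] at this
    convert this
  have one2 : ∑ b : ({x // ¬ x ∈ D} → Bool), ∏ x, wt p (b x) = 1 := by
    have := EE_one (E := {x // ¬ x ∈ D}) p
    simp only [EE, mul_one] at this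
    convert this
  have e1 : EE p f = ∑ a, (∏ x, wt p (a x)) * f' a := by
    rw [key]
    apply Finset.sum_congr rfl
    intro a _
    simp only [hf']
    rw [← Finset.sum_mul, ← Finset.mul_sum, one2, mul_one]
  have e2 : EE p g = ∑ b, (∏ x, wt p (b x)) * g' b := by
    rw [key, Finset.sum_comm]
    apply Finset.sum_congr rfl
    intro b _
    simp only [hg']
    rw [← Finset.sum_mul, ← Finset.sum_mul, one1, one_mul]
  rw [e1, e2, key, Finset.sum_mul_sum]
  apply Finset.sum_congr rfl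
  intro a _
  apply Finset.sum_congr rfl
  intro b _
  rw [hf', hg']
  ring

omit [Fintype E] in
theorem dependsOn_prod {κ : Type} (K : Finset κ) (h : κ → (E → Bool) → ℝ) (D : κ → Set E)
    (hd : ∀ k ∈ K, DependsOn (h k) (D k)) :
    DependsOn (fun ω => ∏ k ∈ K, h k ω) (⋃ k ∈ K, D k) := by
  intro x y hxy
  apply Finset.prod_congr rfl
  intro k hk
  apply hd k hk
  intro i hi
  exact hxy i (Set.mem_biUnion hk hi)

theorem EE_prod_of_dependsOn {p : ℝ} {κ : Type} (K : Finset κ) (h : κ → (E → Bool) → ℝ)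
    (D : κ → Set E) (hd : ∀ k ∈ K, DependsOn (h k) (D k))
    (hdisj : ∀ k ∈ K, ∀ l ∈ K, k ≠ l → Disjoint (D k) (D l)) :
    EE p (fun ω => ∏ k ∈ K, h k ω) = ∏ k ∈ K, EE p (h k) := by
  induction K using Finset.induction_on with
  | empty => simp
  | insert a K ha ih =>
    simp only [Finset.prod_insert ha]
    rw [EE_mul (D := D a) (D' := ⋃ k ∈ K, D k) (hd a (Finset.mem_insert_self a K))
      (dependsOn_prod K h D fun k hk => hd k (Finset.mem_insert_of_mem hk)), ih]
    · intro k hk; exact hd k (Finset.mem_insert_of_mem hk)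
    · intro k hk l hl hkl
      exact hdisj k (Finset.mem_insert_of_mem hk) l (Finset.mem_insert_of_mem hl) hkl
    · rw [Set.disjoint_iUnion₂_right]
      intro k hk
      apply hdisj a (Finset.mem_insert_self a K) k (Finset.mem_insert_of_mem hk)
      rintro rfl
      exact ha hk

/-- Second moment method. -/
theorem second_moment {p : ℝ} (h0 : 0 ≤ p) (h1 : p ≤ 1) (Y : (E → Bool) → ℝ)
    {C : ℝ} (hY2 : EE p (fun ω => Y ω ^ 2) ≤ C * (EE p Y) ^ 2) (hpos : EE p Y ≠ 0) :
    1 ≤ C * EE p (fun ω => if Y ω = 0 then 0 else 1) := by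
  have cs : (EE p Y) ^ 2 ≤ EE p (fun ω => if Y ω = 0 then 0 else 1) * EE p (fun ω => Y ω ^ 2) := by
    unfold EE
    have h := Finset.sum_mul_sq_le_sq_mul_sq (Finset.univ : Finset (E → Bool))
      (fun ω => Real.sqrt (∏ e, wt p (ω e)) * (if Y ω = 0 then 0 else 1))
      (fun ω => Real.sqrt (∏ e, wt p (ω e)) * Y ω)
    have a1 : ∀ ω : E → Bool, (Real.sqrt (∏ e, wt p (ω e)) * (if Y ω = 0 then 0 else 1)) *
        (Real.sqrt (∏ e, wt p (ω e)) * Y ω) = (∏ e, wt p (ω e)) * Y ω := by
      intro ω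
      have := Real.mul_self_sqrt (mu_nonneg h0 h1 ω)
      by_cases hz : Y ω = 0
      · simp [hz]
      · simp only [hz, if_false, mul_one]
        rw [← mul_assoc, this]
    have a2 : ∀ ω : E → Bool, (Real.sqrt (∏ e, wt p (ω e)) * (if Y ω = 0 then (0:ℝ) else 1)) ^ 2 =
        (∏ e, wt p (ω e)) * (if Y ω = 0 then 0 else 1) := by
      intro ω
      have := Real.mul_self_sqrt (mu_nonneg h0 h1 ω)
      by_cases hz : Y ω = 0
      · simp [hz]
      · simp only [hz, if_false, mul_one, sq, this]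
    have a3 : ∀ ω : E → Bool, (Real.sqrt (∏ e, wt p (ω e)) * Y ω) ^ 2 =
        (∏ e, wt p (ω e)) * Y ω ^ 2 := by
      intro ω
      rw [mul_pow, Real.sq_sqrt (mu_nonneg h0 h1 ω)]
    simp only [a1, a2, a3] at h
    exact h
  set P := EE p (fun ω => if Y ω = 0 then (0:ℝ) else 1) with hP
  have hP0 : 0 ≤ P := by
    apply EE_nonneg h0 h1
    intro ω; split_ifs <;> norm_num
  have hsq : 0 < (EE p Y) ^ 2 := by positivity
  have : (EE p Y) ^ 2 * 1 ≤ (EE p Y) ^ 2 * (C * P) := by
    calc (EE p Y) ^ 2 * 1 ≤ P * EE p (fun ω => Y ω ^ 2) := by rw [mul_one]; exact cs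
      _ ≤ P * (C * (EE p Y) ^ 2) := mul_le_mul_of_nonneg_left hY2 hP0
      _ = (EE p Y) ^ 2 * (C * P) := by ring
  exact le_of_mul_le_mul_left this hsq

end general

section graphs
variable {n : ℕ}

/-- the graph encoded by a configuration (diagonal coordinates are dummies) -/
def graphOf (ω : Sym2 (Fin n) → Bool) : SimpleGraph (Fin n) where
  Adj x y := x ≠ y ∧ ω s(x, y) = true
  symm := ⟨by
    intro x y h
    exact ⟨h.1.symm, by rw [Sym2.eq_swap]; exact h.2⟩⟩
  loopless := ⟨by intro x h; exact h.1 rfl⟩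

theorem graphOf_adj (ω : Sym2 (Fin n) → Bool) (x y : Fin n) :
    (graphOf ω).Adj x y ↔ x ≠ y ∧ ω s(x, y) = true := Iff.rfl

/-- non-diagonal pairs -/
noncomputable def nd (n : ℕ) : Finset (Sym2 (Fin n)) := Finset.univ.filter (fun e => ¬ e.IsDiag)

theorem card_nd (n : ℕ) : (nd n).card = n.choose 2 := by
  have := Sym2.card_subtype_not_diag (α := Fin n)
  rw [Fintype.card_fin] at this
  rw [← this, Fintype.card_subtype]
  rfl

theorem graphOf_eq_iff (ω : Sym2 (Fin n) → Bool) (G : SimpleGraph (Fin n)) :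
    graphOf ω = G ↔ ∀ e ∈ nd n, ω e = decide (e ∈ G.edgeSet) := by
  constructor
  · rintro rfl e he
    induction e using Sym2.ind with
    | _ x y =>
      simp only [nd, Finset.mem_filter, Finset.mem_univ, true_and, Sym2.mk_isDiag_iff] at he
      rw [Bool.eq_iff_iff, decide_eq_true_iff, SimpleGraph.mem_edgeSet, graphOf_adj]
      simp [he]
  · intro h
    ext x y
    rw [graphOf_adj]
    constructor
    · rintro ⟨hxy, hω⟩
      have := h s(x, y) (by simp [nd, hxy])
      rw [this, decide_eq_true_iff, SimpleGraph.mem_edgeSet] at hω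
      exact hω
    · intro hadj
      have hne := G.ne_of_adj hadj
      refine ⟨hne, ?_⟩
      have := h s(x, y) (by simp [nd, hne])
      rw [this, decide_eq_true_iff, SimpleGraph.mem_edgeSet]
      exact hadj

theorem push (p : ℝ) (F : SimpleGraph (Fin n) → ℝ) :
    EE p (fun ω => F (graphOf ω)) =
      ∑ G : SimpleGraph (Fin n), F G * (p ^ G.edgeFinset.card *
        (1 - p) ^ (n.choose 2 - G.edgeFinset.card)) := by
  have h1 : ∀ ω : Sym2 (Fin n) → Bool, F (graphOf ω) =
      ∑ G : SimpleGraph (Fin n), F G * (if graphOf ω = G then 1 else 0) := by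
    intro ω
    simp
  simp only [h1]
  rw [EE_sum]
  apply Finset.sum_congr rfl
  intro G _
  rw [EE_smul]
  congr 1
  have h2 : ∀ ω : Sym2 (Fin n) → Bool, (if graphOf ω = G then (1:ℝ) else 0) =
      ∏ e ∈ nd n, (if ω e = decide (e ∈ G.edgeSet) then 1 else 0) := by
    intro ω
    rw [graphOf_eq_iff, Finset.prod_ite_zero]
    simp
  simp only [h2]
  rw [EE_prod p (nd n) (fun e b => if b = decide (e ∈ G.edgeSet) then (1:ℝ) else 0)]
  have h3 : ∀ e ∈ nd n, (p * (if true = decide (e ∈ G.edgeSet) then (1:ℝ) else 0) +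
      (1 - p) * (if false = decide (e ∈ G.edgeSet) then (1:ℝ) else 0)) =
      if e ∈ G.edgeSet then p else 1 - p := by
    intro e _
    by_cases he : e ∈ G.edgeSet <;> simp [he]
  rw [Finset.prod_congr rfl h3, Finset.prod_ite]
  simp only [Finset.prod_const]
  have h4 : (nd n).filter (fun e => e ∈ G.edgeSet) = G.edgeFinset := by
    ext e
    simp only [nd, Finset.mem_filter, Finset.mem_univ, true_and, SimpleGraph.mem_edgeFinset]
    constructor
    · exact fun h => h.2
    · exact fun h => ⟨G.not_isDiag_of_mem_edgeSet h, h⟩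
  have h5 : ((nd n).filter (fun e => e ∉ G.edgeSet)).card = n.choose 2 - G.edgeFinset.card := by
    have := Finset.card_filter_add_card_filter_not (s := nd n) (fun e => e ∈ G.edgeSet)
    rw [h4, card_nd] at this
    omega
  rw [h4, h5]

end graphs

end Pool.Agent.U523.BC
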