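import Pool.Agent.U523.BC.Moment

set_option autoImplicit false
open scoped Classical

namespace Pool.Agent.U523.BC

variable {n : ℕ}

theorem card_overlap (A I : Finset (Fin n)) {a m i : ℕ} (hA : A.card = a) (hI : I.card = m)
    (him : i ≤ m) :
    ((A.powersetCard m).filter (fun I' => (I ∩ I').card = i)).card ≤
      m.choose i * a.choose (m - i) := by
  have h : ((A.powersetCard m).filter (fun I' => (I ∩ I').card = i)).card ≤
      ((I.powersetCard i) ×ˢ (A.powersetCard (m - i))).card := by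
    apply Finset.card_le_card_of_injOn (fun I' => (I ∩ I', I' \ I))
    · intro I' hI'
      simp only [Finset.coe_filter, Set.mem_ofPred_eq, Finset.mem_powersetCard] at hI'
      obtain ⟨⟨h1, h2⟩, h3⟩ := hI'
      simp only [Finset.coe_product, Set.mem_prod, Finset.mem_coe, Finset.mem_powersetCard]
      refine ⟨⟨Finset.inter_subset_left, h3⟩, Finset.sdiff_subset.trans h1, ?_⟩
      have := Finset.card_sdiff_add_card_inter I' I
      rw [Finset.inter_comm I' I] at this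
      omega
    · intro I₁ _ I₂ _ he
      simp only [Prod.mk.injEq] at he
      rw [← Finset.sdiff_union_inter I₁ I, ← Finset.sdiff_union_inter I₂ I, he.2,
        Finset.inter_comm I₁ I, Finset.inter_comm I₂ I, he.1]
  rw [Finset.card_product, Finset.card_powersetCard, Finset.card_powersetCard, hI, hA] at h
  exact h

theorem sum_overlap (A I : Finset (Fin n)) {a m : ℕ} (hA : A.card = a) (hI : I.card = m)
    (F : ℕ → ℝ) (hF : ∀ i, 0 ≤ F i) :
    ∑ I' ∈ A.powersetCard m, F (I ∩ I').card ≤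
      ∑ i ∈ Finset.range (m + 1), (m.choose i : ℝ) * (a.choose (m - i)) * F i := by
  have hmaps : ∀ I' ∈ A.powersetCard m, (I ∩ I').card ∈ Finset.range (m + 1) := by
    intro I' _
    rw [Finset.mem_range]
    have := Finset.card_le_card (Finset.inter_subset_left (s₁ := I) (s₂ := I'))
    omega
  rw [← Finset.sum_fiberwise_of_maps_to hmaps]
  apply Finset.sum_le_sum
  intro i hi
  rw [Finset.mem_range] at hi
  have h1 : ∑ I' ∈ (A.powersetCard m).filter (fun I' => (I ∩ I').card = i), F (I ∩ I').card =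
      ∑ I' ∈ (A.powersetCard m).filter (fun I' => (I ∩ I').card = i), F i := by
    apply Finset.sum_congr rfl
    intro I' hI'
    rw [(Finset.mem_filter.1 hI').2]
  rw [h1, Finset.sum_const, nsmul_eq_mul]
  apply mul_le_mul_of_nonneg_right _ (hF i)
  have := card_overlap A I hA hI (i := i) (by omega)
  exact_mod_cast this

/-- number of structures -/
noncomputable def YY (m : ℕ) (A B₁ B₂ : Finset (Fin n)) (ω : Sym2 (Fin n) → Bool) : ℝ :=
  ∑ I ∈ A.powersetCard m, ∑ u ∈ B₁, ∑ v ∈ B₂, TT I u v ω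

theorem EE_YY (p : ℝ) {m a β : ℕ} (A B₁ B₂ : Finset (Fin n)) (hA : A.card = a) (h1 : B₁.card = β)
    (h2 : B₂.card = β) (hA1 : Disjoint A B₁) (hA2 : Disjoint A B₂) (h12 : Disjoint B₁ B₂) :
    EE p (YY m A B₁ B₂) = (a.choose m : ℝ) * β * β *
      ((1 - p) ^ (m.choose 2) * ((1 - p) * (p ^ 2 + (1 - p) ^ 2) ^ m)) := by
  unfold YY
  rw [EE_sum]
  have : ∀ I ∈ A.powersetCard m, EE p (fun ω => ∑ u ∈ B₁, ∑ v ∈ B₂, TT I u v ω) =
      (β : ℝ) * (β * ((1 - p) ^ (m.choose 2) * ((1 - p) * (p ^ 2 + (1 - p) ^ 2) ^ m))) := by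
    intro I hI
    rw [Finset.mem_powersetCard] at hI
    rw [EE_sum]
    have : ∀ u ∈ B₁, EE p (fun ω => ∑ v ∈ B₂, TT I u v ω) =
        (β * ((1 - p) ^ (m.choose 2) * ((1 - p) * (p ^ 2 + (1 - p) ^ 2) ^ m))) := by
      intro u hu
      rw [EE_sum]
      have : ∀ v ∈ B₂, EE p (TT I u v) =
          (((1 - p) ^ (m.choose 2) * ((1 - p) * (p ^ 2 + (1 - p) ^ 2) ^ m))) := by
        intro v hv
        apply EE_TT p A I hI.1 hI.2
        · exact fun h => Finset.disjoint_left.1 hA1 h hu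
        · exact fun h => Finset.disjoint_left.1 hA2 h hv
        · rintro rfl; exact Finset.disjoint_left.1 h12 hu hv
      rw [Finset.sum_congr rfl this, Finset.sum_const, h2, nsmul_eq_mul]
    rw [Finset.sum_congr rfl this, Finset.sum_const, h1, nsmul_eq_mul]
  rw [Finset.sum_congr rfl this, Finset.sum_const, Finset.card_powersetCard, hA, nsmul_eq_mul]
  ring

/-- upper bound for the local sums -/
noncomputable def GG (p : ℝ) (β m i : ℕ) : ℝ :=
  (β : ℝ) ^ 2 * ((1 - p) ^ 2 * (p ^ 2 + (1 - p) ^ 2) ^ (2 * m)) +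
    2 * β * ((1 - p) ^ 2 * ((p ^ 2 + (1 - p) ^ 2) ^ (2 * (m - i)) * (p ^ 3 + (1 - p) ^ 3) ^ i)) +
    (1 - p) * ((p ^ 2 + (1 - p) ^ 2) ^ (2 * (m - i)) * (p ^ 2 + (1 - p) ^ 2) ^ i)

theorem local_bound {p : ℝ} (h0 : 0 ≤ p) (h1 : p ≤ 1) {m i : ℕ} (him : i ≤ m) (u v u' v' : Fin n) :
    nn p u v u' v' * ((p ^ 2 + (1 - p) ^ 2) ^ (2 * (m - i)) * (loc p u v u' v') ^ i) ≤
      (1 - p) ^ 2 * (p ^ 2 + (1 - p) ^ 2) ^ (2 * m) +
      (if u = u' then (1 - p) ^ 2 * ((p ^ 2 + (1 - p) ^ 2) ^ (2 * (m - i)) *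
        (p ^ 3 + (1 - p) ^ 3) ^ i) else 0) +
      (if v = v' then (1 - p) ^ 2 * ((p ^ 2 + (1 - p) ^ 2) ^ (2 * (m - i)) *
        (p ^ 3 + (1 - p) ^ 3) ^ i) else 0) +
      (if u = u' then (if v = v' then (1 - p) * ((p ^ 2 + (1 - p) ^ 2) ^ (2 * (m - i)) *
        (p ^ 2 + (1 - p) ^ 2) ^ i) else 0) else 0) := by
  have hq : 0 ≤ 1 - p := by linarith
  set q := 1 - p with hqdef
  set s := p ^ 2 + q ^ 2 with hs
  set c := p ^ 3 + q ^ 3 with hc
  have hs0 : 0 ≤ s := by positivity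
  have hc0 : 0 ≤ c := by positivity
  have X0 : 0 ≤ q ^ 2 * s ^ (2 * m) := by positivity
  have X1 : 0 ≤ q ^ 2 * (s ^ (2 * (m - i)) * c ^ i) := by positivity
  have X2 : 0 ≤ q * (s ^ (2 * (m - i)) * s ^ i) := by positivity
  unfold nn loc
  by_cases e1 : u = u' <;> by_cases e2 : v = v'
  · simp only [e1, e2, and_self, if_true]
    linarith
  · simp only [e1, e2, and_false, if_true, if_false]
    linarith
  · simp only [e1, e2, false_and, if_true, if_false]
    linarith
  · simp only [e1, e2, and_self, if_false]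
    have : s ^ (2 * (m - i)) * (s ^ 2) ^ i = s ^ (2 * m) := by
      rw [← pow_mul, ← pow_add]; congr 1; omega
    have h' : (p ^ 2 + (1 - p) ^ 2) = s := rfl
    rw [h', this]
    linarith

theorem sum_local {p : ℝ} (h0 : 0 ≤ p) (h1 : p ≤ 1) {m i β : ℕ} (him : i ≤ m)
    (B₁ B₂ : Finset (Fin n)) (hB1 : B₁.card = β) (hB2 : B₂.card = β) {u v : Fin n}
    (hu : u ∈ B₁) (hv : v ∈ B₂) :
    ∑ u' ∈ B₁, ∑ v' ∈ B₂, nn p u v u' v' *
      ((p ^ 2 + (1 - p) ^ 2) ^ (2 * (m - i)) * (loc p u v u' v') ^ i) ≤ GG p β m i := by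
  refine (Finset.sum_le_sum fun u' _ => Finset.sum_le_sum fun v' _ =>
    local_bound h0 h1 him u v u' v').trans ?_
  simp only [Finset.sum_add_distrib, Finset.sum_const, hB1, hB2, nsmul_eq_mul,
    Finset.sum_ite_eq, hu, hv, if_true, Finset.sum_ite_irrel, smul_ite, mul_zero]
  unfold GG
  apply le_of_eq
  ring

theorem EE_YY_sq {p : ℝ} (h0 : 0 ≤ p) (h1 : p ≤ 1) {m a β : ℕ} (A B₁ B₂ : Finset (Fin n))
    (hA : A.card = a) (hB1 : B₁.card = β)
    (hB2 : B₂.card = β) (hA1 : Disjoint A B₁) (hA2 : Disjoint A B₂) (h12 : Disjoint B₁ B₂) :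
    EE p (fun ω => YY m A B₁ B₂ ω ^ 2) ≤ (a.choose m : ℝ) * β * β *
      ∑ i ∈ Finset.range (m + 1), (m.choose i : ℝ) * (a.choose (m - i)) *
        ((1 - p) ^ (2 * m.choose 2 - i.choose 2) * GG p β m i) := by
  have hq : 0 ≤ 1 - p := by linarith
  -- expand the square
  have hexp : (fun ω => YY m A B₁ B₂ ω ^ 2) = (fun ω => ∑ I ∈ A.powersetCard m, ∑ u ∈ B₁,
      ∑ v ∈ B₂, ∑ I' ∈ A.powersetCard m, ∑ u' ∈ B₁, ∑ v' ∈ B₂, TT I u v ω * TT I' u' v' ω) := by
    funext ω
    rw [sq]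
    unfold YY
    simp only [Finset.sum_mul]
    simp only [Finset.mul_sum]
  rw [hexp]
  simp only [EE_sum]
  have hGG : ∀ i, 0 ≤ GG p β m i := by
    intro i; unfold GG; positivity
  have step : ∀ I ∈ A.powersetCard m, ∀ u ∈ B₁, ∀ v ∈ B₂,
      ∑ I' ∈ A.powersetCard m, ∑ u' ∈ B₁, ∑ v' ∈ B₂, EE p (fun ω => TT I u v ω * TT I' u' v' ω) ≤
      ∑ i ∈ Finset.range (m + 1), (m.choose i : ℝ) * (a.choose (m - i)) *
        ((1 - p) ^ (2 * m.choose 2 - i.choose 2) * GG p β m i) := by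
    intro I hI u hu v hv
    rw [Finset.mem_powersetCard] at hI
    refine le_trans ?_ (sum_overlap A I hA hI.2
      (fun i => (1 - p) ^ (2 * m.choose 2 - i.choose 2) * GG p β m i)
      (fun i => mul_nonneg (pow_nonneg hq _) (hGG i)))
    apply Finset.sum_le_sum
    intro I' hI'
    rw [Finset.mem_powersetCard] at hI'
    set i := (I ∩ I').card with hi
    have him : i ≤ m := by
      have := Finset.card_le_card (Finset.inter_subset_left (s₁ := I) (s₂ := I'))
      omega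
    have hcard : (prs I ∪ prs I').card = 2 * m.choose 2 - i.choose 2 := by
      have := card_prs_union I I' hI.2 hI'.2 hi.symm
      omega
    have hval : ∀ u' ∈ B₁, ∀ v' ∈ B₂, EE p (fun ω => TT I u v ω * TT I' u' v' ω) =
        (1 - p) ^ (2 * m.choose 2 - i.choose 2) * (nn p u v u' v' *
        ((p ^ 2 + (1 - p) ^ 2) ^ (2 * (m - i)) * (loc p u v u' v') ^ i)) := by
      intro u' hu' v' hv'
      rw [← hcard]
      apply EE_TT_mul p A I I' hI.1 hI'.1 hI.2 hI'.2 hi.symm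
      · exact fun h => Finset.disjoint_left.1 hA1 h hu
      · exact fun h => Finset.disjoint_left.1 hA2 h hv
      · exact fun h => Finset.disjoint_left.1 hA1 h hu'
      · exact fun h => Finset.disjoint_left.1 hA2 h hv'
      · rintro rfl; exact Finset.disjoint_left.1 h12 hu hv
      · rintro rfl; exact Finset.disjoint_left.1 h12 hu' hv'
      · rintro rfl; exact Finset.disjoint_left.1 h12 hu hv'
      · rintro rfl; exact Finset.disjoint_left.1 h12 hu' hv
    rw [Finset.sum_congr rfl fun u' hu' => Finset.sum_congr rfl fun v' hv' => hval u' hu' v' hv']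
    simp only [← Finset.mul_sum]
    exact mul_le_mul_of_nonneg_left (sum_local h0 h1 him B₁ B₂ hB1 hB2 hu hv) (pow_nonneg hq _)
  refine (Finset.sum_le_sum fun I hI => Finset.sum_le_sum fun u hu => Finset.sum_le_sum
    fun v hv => step I hI u hu v hv).trans ?_
  simp only [Finset.sum_const, Finset.card_powersetCard, hA, hB1, hB2, nsmul_eq_mul]
  apply le_of_eq
  ring

/-- number of independent sets of size `k` -/
noncomputable def XX (n k : ℕ) (ω : Sym2 (Fin n) → Bool) : ℝ :=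
  ∑ I ∈ (Finset.univ : Finset (Fin n)).powersetCard k, JJ I ω

theorem EE_XX (p : ℝ) (k : ℕ) : EE p (XX n k) = (n.choose k : ℝ) * (1 - p) ^ (k.choose 2) := by
  unfold XX
  rw [EE_sum]
  have : ∀ I ∈ (Finset.univ : Finset (Fin n)).powersetCard k, EE p (JJ I) =
      (1 - p) ^ (k.choose 2) := by
    intro I hI
    rw [Finset.mem_powersetCard] at hI
    rw [EE_JJ, hI.2]
  rw [Finset.sum_congr rfl this, Finset.sum_const, Finset.card_powersetCard, Finset.card_univ,
    Fintype.card_fin, nsmul_eq_mul]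

end Pool.Agent.U523.BC
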